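import Pool.Agent.W534.Rank

/-!
# One surjectivity and the powers of the Lambda operator

Let `R` be a graded algebra of operators on a graded space with hard Lefschetz which contains `L`. If
`y ↦ L y + y L` iterated `2 r` times maps the operators of degree `-r` in `R` onto the operators of
degree `r` in `R`, for one `r ≥ 1`, then `Λ ^ s` is in the span of `R` for all `s ≥ r`.
-/

open Polynomial Finset

namespace Pool.Agent.U360.SF

open Pool.Agent.H914 Pool.Agent.H447

variable {K : Type*} [Field K] {V : Type*} [AddCommGroup V] [Module K V]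
  {gr : ℕ → Submodule K V} {n : ℕ} {L : Module.End K V}

/-- The vector `L ^ j a`, zero for negative `j`. -/
noncomputable def Ls (L : Module.End K V) (j : ℤ) (a : V) : V :=
  if 0 ≤ j then (L ^ j.toNat) a else 0

lemma Ls_nat (j : ℕ) (a : V) : Ls L (j : ℤ) a = (L ^ j) a := by
  simp [Ls]

lemma Ls_neg {j : ℤ} (hj : j < 0) (a : V) : Ls L j a = 0 := by
  rw [Ls, if_neg (by omega)]

lemma L_Ls (j : ℤ) (a : V) : L (Ls L j a) = (if 0 ≤ j then (1 : K) else 0) • Ls L (j + 1) a := by
  by_cases hj : 0 ≤ j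
  · obtain ⟨m, rfl⟩ := Int.eq_ofNat_of_zero_le hj
    rw [if_pos hj, one_smul, Ls_nat, show (m : ℤ) + 1 = ((m + 1 : ℕ) : ℤ) by push_cast; ring,
      Ls_nat, pow_succ', Module.End.mul_apply]
  · rw [if_neg hj, Ls_neg (by omega), map_zero, zero_smul]

/-- Operators of degree `d` acting on the strings by scalars. -/
def ST (gr : ℕ → Submodule K V) (n : ℕ) (L : Module.End K V) (d : ℤ) :
    Submodule K (Module.End K V) where
  carrier := {x | ∃ c : ℕ → ℤ → K, ∀ i ≤ n, ∀ a ∈ gr i, (L ^ (n - i + 1)) a = 0 → ∀ j : ℤ,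
    x (Ls L j a) = c i j • Ls L (j + d) a}
  zero_mem' := ⟨fun _ _ => 0, fun i _ a _ _ j => by simp⟩
  add_mem' := by
    rintro x y ⟨c, hc⟩ ⟨c', hc'⟩
    refine ⟨fun i j => c i j + c' i j, fun i hi a ha hp j => ?_⟩
    rw [LinearMap.add_apply, hc i hi a ha hp, hc' i hi a ha hp, add_smul]
  smul_mem' := by
    rintro q x ⟨c, hc⟩
    refine ⟨fun i j => q * c i j, fun i hi a ha hp j => ?_⟩
    rw [LinearMap.smul_apply, hc i hi a ha hp, smul_smul]

lemma ST.one : (1 : Module.End K V) ∈ ST gr n L 0 :=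
  ⟨fun _ _ => 1, fun i _ a _ _ j => by simp⟩

lemma ST.L_mul {d : ℤ} {x : Module.End K V} (hx : x ∈ ST gr n L d) :
    L * x ∈ ST gr n L (d + 1) := by
  obtain ⟨c, hc⟩ := hx
  refine ⟨fun i j => c i j * (if 0 ≤ j + d then (1 : K) else 0), fun i hi a ha hp j => ?_⟩
  rw [Module.End.mul_apply, hc i hi a ha hp, map_smul, L_Ls, smul_smul, add_assoc]

lemma ST.mul_L {d : ℤ} {x : Module.End K V} (hx : x ∈ ST gr n L d) :
    x * L ∈ ST gr n L (d + 1) := by
  obtain ⟨c, hc⟩ := hx
  refine ⟨fun i j => (if 0 ≤ j then (1 : K) else 0) * c i (j + 1), fun i hi a ha hp j => ?_⟩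
  rw [Module.End.mul_apply, L_Ls, map_smul, hc i hi a ha hp, smul_smul,
    show j + 1 + d = j + (d + 1) by ring]

lemma ST.pow_mul {d : ℤ} {x : Module.End K V} (hx : x ∈ ST gr n L d) (r : ℕ) :
    L ^ r * x ∈ ST gr n L (d + r) := by
  induction r with
  | zero => simpa using hx
  | succ r ih =>
    rw [pow_succ', mul_assoc]
    have := ST.L_mul ih
    rwa [show d + ((r + 1 : ℕ) : ℤ) = d + r + 1 by push_cast; ring]

/-- The scalars of the lowering operator. -/
lemma f_Ls {f : Module.End K V} (hfv : ∀ i ≤ n, ∀ a ∈ gr i, (L ^ (n - i + 1)) a = 0 → ∀ j ≤ n - i,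
      f ((L ^ j) a) = ((j : K) * (((n - i : ℕ) : K) - j + 1)) • (L ^ (j - 1)) a)
    {i : ℕ} (hi : i ≤ n) {a : V} (ha : a ∈ gr i) (hp : (L ^ (n - i + 1)) a = 0) (j : ℤ) :
    f (Ls L j a) = ((j : K) * (((n - i : ℕ) : K) - j + 1)) • Ls L (j - 1) a := by
  by_cases hj : 0 ≤ j
  · obtain ⟨m, rfl⟩ := Int.eq_ofNat_of_zero_le hj
    rw [Ls_nat]
    by_cases hm : m ≤ n - i
    · rw [hfv i hi a ha hp m hm]
      rcases Nat.eq_zero_or_pos m with rfl | h0
      · simp
      · rw [show (m : ℤ) - 1 = ((m - 1 : ℕ) : ℤ) by omega, Ls_nat]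
        push_cast
        rfl
    · rw [L_pow_gt hp (by omega), map_zero]
      by_cases hm1 : m = n - i + 1
      · subst hm1
        push_cast
        rw [show ((n - i : ℕ) : K) - (((n - i : ℕ) : K) + 1) + 1 = 0 by ring, mul_zero, zero_smul]
      · rw [show (m : ℤ) - 1 = ((m - 1 : ℕ) : ℤ) by omega, Ls_nat, L_pow_gt hp (by omega),
          smul_zero]
  · rw [Ls_neg (by omega), Ls_neg (by omega), map_zero, smul_zero]

lemma ST.f_mul {f : Module.End K V}
    (hfv : ∀ i ≤ n, ∀ a ∈ gr i, (L ^ (n - i + 1)) a = 0 → ∀ j ≤ n - i,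
      f ((L ^ j) a) = ((j : K) * (((n - i : ℕ) : K) - j + 1)) • (L ^ (j - 1)) a)
    {d : ℤ} {x : Module.End K V} (hx : x ∈ ST gr n L d) : f * x ∈ ST gr n L (d - 1) := by
  obtain ⟨c, hc⟩ := hx
  refine ⟨fun i j => c i j * (((j + d : ℤ) : K) * (((n - i : ℕ) : K) - ((j + d : ℤ) : K) + 1)),
    fun i hi a ha hp j => ?_⟩
  rw [Module.End.mul_apply, hc i hi a ha hp, map_smul, f_Ls hfv hi ha hp, smul_smul,
    add_sub_assoc]

lemma ST.mul_f {f : Module.End K V}
    (hfv : ∀ i ≤ n, ∀ a ∈ gr i, (L ^ (n - i + 1)) a = 0 → ∀ j ≤ n - i,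
      f ((L ^ j) a) = ((j : K) * (((n - i : ℕ) : K) - j + 1)) • (L ^ (j - 1)) a)
    {d : ℤ} {x : Module.End K V} (hx : x ∈ ST gr n L d) : x * f ∈ ST gr n L (d - 1) := by
  obtain ⟨c, hc⟩ := hx
  refine ⟨fun i j => ((j : K) * (((n - i : ℕ) : K) - (j : K) + 1)) * c i (j - 1),
    fun i hi a ha hp j => ?_⟩
  rw [Module.End.mul_apply, f_Ls hfv hi ha hp, map_smul, hc i hi a ha hp, smul_smul,
    show j - 1 + d = j + (d - 1) by ring]

variable [CharZero K]

/-- Injectivity in any degree. -/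
lemma dbl_inj' [Module.Finite K V] (h : DirectSum.IsInternal gr) {f : Module.End K V}
    (t : Sl2 (wt h n) L f) {r : ℕ} {x : Module.End K V} (hx : IsHom gr (-(2 * r : ℤ)) x)
    (h0 : (dbl L ^ (2 * r)) x = 0) : x = 0 := by
  apply e_pow_inj (sl2_dbl t) (c := 2 * r) _ h0
  rw [weight_dbl h hx]
  congr 1
  push_cast; ring

/-- The preimage of a string operator is a string operator. -/
lemma string_preimage [Module.Finite K V] (h : DirectSum.IsInternal gr) (hLh : IsHom gr 2 L)
    {f : Module.End K V} (t : Sl2 (wt h n) L f) (hf : IsHom gr (-2) f)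
    (hfv : ∀ i ≤ n, ∀ a ∈ gr i, (L ^ (n - i + 1)) a = 0 → ∀ j ≤ n - i,
      f ((L ^ j) a) = ((j : K) * (((n - i : ℕ) : K) - j + 1)) • (L ^ (j - 1)) a)
    {r : ℕ} {y z : Module.End K V} (hy : y ∈ ST gr n L r) (hyh : IsHom gr (2 * (r : ℤ)) y)
    (hz : IsHom gr (2 * (-(r : ℤ))) z) (hzy : (dbl L ^ (2 * r)) z = y) :
    z ∈ ST gr n L (-r) := by
  obtain ⟨w, ⟨hwh, hwS⟩, hw⟩ := exists_preimage (sl2_dbl t)
    (P := fun d x => IsHom gr (2 * d) x ∧ x ∈ ST gr n L d)
    (fun d => ⟨isHom_zero _, Submodule.zero_mem _⟩)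
    (fun hx hy => ⟨hx.1.add hy.1, Submodule.add_mem _ hx.2 hy.2⟩)
    (fun q d x hx => ⟨hx.1.smul _, Submodule.smul_mem _ _ hx.2⟩)
    (fun {d x} hx => by
      refine ⟨?_, Submodule.add_mem _ (ST.L_mul hx.2) (ST.mul_L hx.2)⟩
      have h1 := hLh.mul hx.1
      have h2 := hx.1.mul hLh
      rw [show (2 : ℤ) + 2 * d = 2 * (d + 1) by ring] at h1
      rw [show 2 * d + (2 : ℤ) = 2 * (d + 1) by ring] at h2
      exact h1.add h2)
    (fun {d x} hx => by
      refine ⟨?_, Submodule.add_mem _ (ST.f_mul hfv hx.2) (ST.mul_f hfv hx.2)⟩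
      have h1 := hf.mul hx.1
      have h2 := hx.1.mul hf
      rw [show (-2 : ℤ) + 2 * d = 2 * (d - 1) by ring] at h1
      rw [show 2 * d + (-2 : ℤ) = 2 * (d - 1) by ring] at h2
      exact h1.add h2)
    (fun {d x} hx => weight_dbl h hx.1) r ⟨hyh, hy⟩
  have h1 : z = w := by
    refine sub_eq_zero.1 (dbl_inj' h t (r := r) (x := z - w) (IsHom.sub ?_ ?_) ?_)
    · simpa using hz
    · simpa using hwh
    · rw [map_sub, hzy, hw, sub_self]
  rw [h1]
  exact hwS


omit [CharZero K] in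
/-- A string operator of negative degree which kills the image of `L ^ r` is zero. -/
lemma ST.eq_zero_of_mul (h : DirectSum.IsInternal gr) (hLh : IsHom gr 2 L)
    (hbd : ∀ i, 2 * n + 1 ≤ i → gr i = ⊥) (hHL : HardLef gr n L) {r : ℕ} {y : Module.End K V}
    (hy : y ∈ ST gr n L (-r)) (h0 : y * L ^ r = 0) : y = 0 := by
  obtain ⟨c, hc⟩ := hy
  apply LinearMap.ext
  intro x
  rw [LinearMap.zero_apply]
  refine lef_induction' h hLh hbd hHL (p := fun x => y x = 0) ?_ ?_ x
  · intro a b ha hb; rw [map_add, ha, hb, add_zero]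
  · intro i hi a ha hp j
    by_cases hj : j < r
    · rw [← Ls_nat, hc i hi a ha hp, Ls_neg (by omega), smul_zero]
    · rw [show j = r + (j - r) by omega, pow_add, Module.End.mul_apply, ← Module.End.mul_apply y,
        h0, LinearMap.zero_apply]

omit [CharZero K] in
/-- The operators `y L ^ r`, killed by `L ^ r` on the left, are zero. -/
lemma ST.eq_zero_of_mul_mul (h : DirectSum.IsInternal gr) (hLh : IsHom gr 2 L)
    (hbd : ∀ i, 2 * n + 1 ≤ i → gr i = ⊥) (hHL : HardLef gr n L) {r : ℕ} {y : Module.End K V}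
    (hy : y ∈ ST gr n L (-r)) (h0 : L ^ r * (y * L ^ r) = 0) : y * L ^ r = 0 := by
  obtain ⟨c, hc⟩ := hy
  apply LinearMap.ext
  intro x
  rw [LinearMap.zero_apply]
  refine lef_induction' h hLh hbd hHL (p := fun x => (y * L ^ r) x = 0) ?_ ?_ x
  · intro a b ha hb; rw [map_add, ha, hb, add_zero]
  · intro i hi a ha hp j
    have h1 : (y * L ^ r) ((L ^ j) a) = c i ((r + j : ℕ) : ℤ) • (L ^ j) a := by
      rw [Module.End.mul_apply, ← Module.End.mul_apply (L ^ r), ← pow_add, ← Ls_nat,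
        hc i hi a ha hp, show ((r + j : ℕ) : ℤ) + -(r : ℤ) = (j : ℤ) by push_cast; ring, Ls_nat]
    by_cases hj : r + j ≤ n - i
    · have h2 := congrArg (fun F => F ((L ^ j) a)) h0
      beta_reduce at h2
      rw [Module.End.mul_apply, h1, map_smul, ← Module.End.mul_apply (L ^ r), ← pow_add,
        LinearMap.zero_apply] at h2
      rcases smul_eq_zero.1 h2 with h3 | h3
      · rw [h1, h3, zero_smul]
      · have h4 : (L ^ (n - i)) a = 0 := by
          rw [show n - i = (n - i - (r + j)) + (r + j) by omega, pow_add, Module.End.mul_apply, h3,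
            map_zero]
        rw [(hHL i hi).1 a ha h4, map_zero, map_zero]
    · rw [Module.End.mul_apply, ← Module.End.mul_apply (L ^ r), ← pow_add,
        L_pow_gt hp (by omega), map_zero]

omit [CharZero K] in
/-- The power of the Lambda operator is determined by `L ^ r y L ^ r = L ^ r`. -/
lemma ST.eq_lam_pow (h : DirectSum.IsInternal gr) (hLh : IsHom gr 2 L)
    (hbd : ∀ i, 2 * n + 1 ≤ i → gr i = ⊥) (hHL : HardLef gr n L) {Φ : Module.End K V}
    (hΦ : IsLam gr n L Φ) {r : ℕ} {y : Module.End K V}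
    (hy : y ∈ ST gr n L (-r)) (h0 : L ^ r * (y * L ^ r) = L ^ r) : y = Φ ^ r := by
  obtain ⟨c, hc⟩ := hy
  apply LinearMap.ext
  intro x
  refine lef_induction' h hLh hbd hHL (p := fun x => y x = (Φ ^ r) x) ?_ ?_ x
  · intro a b ha hb; rw [map_add, map_add, ha, hb]
  · intro i hi a ha hp j
    by_cases hjn : j ≤ n - i
    · by_cases hj : j < r
      · rw [← Ls_nat, hc i hi a ha hp, Ls_neg (by omega), smul_zero, Ls_nat,
          lam_pow_gt hΦ hi ha hp hjn hj]
      · rw [lam_pow hΦ hi ha hp hjn r (by omega), ← Ls_nat, hc i hi a ha hp,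
          show (j : ℤ) + -(r : ℤ) = ((j - r : ℕ) : ℤ) by omega, Ls_nat]
        have h1 : (y * L ^ r) ((L ^ (j - r)) a) = c i (j : ℤ) • (L ^ (j - r)) a := by
          rw [Module.End.mul_apply, ← Module.End.mul_apply (L ^ r), ← pow_add,
            show r + (j - r) = j by omega, ← Ls_nat,
            hc i hi a ha hp, show (j : ℤ) + -(r : ℤ) = ((j - r : ℕ) : ℤ) by omega, Ls_nat]
        have h2 := congrArg (fun F => F ((L ^ (j - r)) a)) h0
        beta_reduce at h2
        rw [Module.End.mul_apply, h1, map_smul, ← Module.End.mul_apply (L ^ r), ← pow_add,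
          show r + (j - r) = j by omega] at h2
        by_cases h3 : (L ^ j) a = 0
        · have h4 : (L ^ (n - i)) a = 0 := by
            rw [show n - i = (n - i - j) + j by omega, pow_add, Module.End.mul_apply, h3, map_zero]
          rw [(hHL i hi).1 a ha h4, map_zero, smul_zero]
        · have h4 : (c i (j : ℤ) - 1) • (L ^ j) a = 0 := by rw [sub_smul, h2, one_smul, sub_self]
          rcases smul_eq_zero.1 h4 with h5 | h5
          · rw [sub_eq_zero.1 h5, one_smul]
          · exact absurd h5 h3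
    · rw [L_pow_gt hp (by omega), map_zero, map_zero]

/-- **One surjectivity gives the powers of the Lambda operator.** -/
theorem lam_pow_mem [Module.Finite K V] {R : ℤ → Module.End K V → Prop} (hR : OpAlg gr R)
    (h : DirectSum.IsInternal gr) (hbd : ∀ i, 2 * n + 1 ≤ i → gr i = ⊥) (hL : L ∈ KS R 1)
    (hHL : HardLef gr n L) {Φ : Module.End K V} (hΦ : IsLam gr n L Φ) {r : ℕ}
    (hsurj : ∀ y ∈ KS R r, ∃ z ∈ KS R (-r), (dbl L ^ (2 * r)) z = y) : Φ ^ r ∈ KS R (-r) := by
  have hLh : IsHom gr 2 L := by simpa using hR.kspan.hom hL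
  obtain ⟨f, t, hf, hfv⟩ := exists_sl2 h hLh hbd hHL
  set Y : Submodule K (Module.End K V) := KS R (-r) ⊓ ST gr n L (-r) with hY
  set T0 : Submodule K (Module.End K V) := KS R 0 ⊓ ST gr n L 0 with hT0
  set RL : Module.End K V →ₗ[K] Module.End K V := LinearMap.mulRight K (L ^ r) with hRL
  set LL : Module.End K V →ₗ[K] Module.End K V := LinearMap.mulLeft K (L ^ r) with hLL
  have hLr : L ^ r ∈ KS R r := hR.kspan.cast (hR.kspan.pow hL r) (by ring)
  -- the space `U`
  have hUT : Y.map RL ≤ T0 := by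
    rintro _ ⟨y, hy, rfl⟩
    refine ⟨hR.kspan.cast (hR.kspan.mul hy.1 hLr) (by ring), ?_⟩
    have key : ∀ s : ℕ, y * L ^ s ∈ ST gr n L (-r + s) := by
      intro s
      induction s with
      | zero => simpa using hy.2
      | succ s ih =>
        rw [pow_succ, ← mul_assoc, show -(r : ℤ) + ((s + 1 : ℕ) : ℤ) = -r + s + 1 by
          push_cast; ring]
        exact ST.mul_L ih
    have := key r
    rwa [neg_add_cancel] at this
  have hRLinj : Set.InjOn RL Y := by
    intro y hy y' hy' hyy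
    have h1 : (y - y') * L ^ r = 0 := by
      rw [sub_mul, sub_eq_zero]; exact hyy
    exact sub_eq_zero.1 (ST.eq_zero_of_mul h hLh hbd hHL (Submodule.sub_mem _ hy.2 hy'.2) h1)
  have hfU : Module.finrank K (Y.map RL) = Module.finrank K Y := by
    have hker : LinearMap.ker (RL.domRestrict Y) = ⊥ := by
      rw [LinearMap.ker_eq_bot']
      rintro ⟨x, hx⟩ h0
      apply Subtype.ext
      exact ST.eq_zero_of_mul h hLh hbd hHL hx.2 h0
    have h1 := LinearMap.finrank_range_of_inj (LinearMap.ker_eq_bot.1 hker)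
    rw [LinearMap.range_domRestrict] at h1
    exact h1
  -- the kernel
  set N0 : Submodule K (Module.End K V) := T0 ⊓ LinearMap.ker LL with hN0
  have hdisj : N0 ⊓ Y.map RL = ⊥ := by
    rw [eq_bot_iff]
    rintro _ ⟨⟨-, hx⟩, ⟨y, hy, rfl⟩⟩
    rw [Submodule.mem_bot]
    exact ST.eq_zero_of_mul_mul h hLh hbd hHL hy.2 hx
  -- the image
  have himg : T0.map LL ≤ Y.map ((dbl L) ^ (2 * r)) := by
    rintro _ ⟨D, hD, rfl⟩
    have h1 : L ^ r * D ∈ KS R r := hR.kspan.cast (hR.kspan.mul hLr hD.1) (by ring)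
    obtain ⟨z, hz, hzy⟩ := hsurj _ h1
    have h2 : L ^ r * D ∈ ST gr n L r := by
      have := ST.pow_mul hD.2 r
      rwa [zero_add] at this
    exact ⟨z, ⟨hz, string_preimage h hLh t hf hfv h2 (hR.kspan.hom h1) (hR.kspan.hom hz) hzy⟩,
      hzy⟩
  have hf1 : Module.finrank K (T0.map LL) ≤ Module.finrank K Y :=
    (Submodule.finrank_mono himg).trans (Submodule.finrank_map_le _ _)
  have hf2 : Module.finrank K (T0.map LL) + Module.finrank K N0 = Module.finrank K T0 := by
    have h1 := LinearMap.finrank_range_add_finrank_ker (LL.domRestrict T0)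
    rw [LinearMap.range_domRestrict] at h1
    have h2 : (LinearMap.ker (LL.domRestrict T0)).map T0.subtype = N0 := by
      ext x
      constructor
      · rintro ⟨⟨c, hc⟩, hc', rfl⟩
        exact ⟨hc, hc'⟩
      · rintro ⟨hx, hx'⟩
        exact ⟨⟨x, hx⟩, hx', rfl⟩
    have h3 : Module.finrank K (LinearMap.ker (LL.domRestrict T0)) = Module.finrank K N0 := by
      rw [← h2]
      exact (Submodule.equivMapOfInjective _ (Submodule.subtype_injective _) _).finrank_eq
    rw [← h3]
    exact h1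
  have hsup : N0 ⊔ Y.map RL = T0 := by
    have hle : N0 ⊔ Y.map RL ≤ T0 := sup_le inf_le_left hUT
    refine Submodule.eq_of_le_of_finrank_le hle ?_
    have h1 := Submodule.finrank_sup_add_finrank_inf_eq N0 (Y.map RL)
    rw [hdisj, finrank_bot] at h1
    omega
  have hone : (1 : Module.End K V) ∈ N0 ⊔ Y.map RL := by
    rw [hsup]
    exact ⟨hR.kspan.one, ST.one⟩
  obtain ⟨v, hv, u, ⟨y, hy, rfl⟩, h1⟩ := Submodule.mem_sup.1 hone
  have h2 : L ^ r * (y * L ^ r) = L ^ r := by
    have h3 : L ^ r * v = 0 := hv.2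
    have h4 : L ^ r * (v + y * L ^ r) = L ^ r * 1 := congrArg _ h1
    rw [mul_add, h3, zero_add, mul_one] at h4
    exact h4
  rw [← ST.eq_lam_pow h hLh hbd hHL hΦ hy.2 h2]
  exact hy.1

/-- The higher powers. -/
theorem lam_pow_mem_of_le [Module.Finite K V] {R : ℤ → Module.End K V → Prop} (hR : OpAlg gr R)
    (h : DirectSum.IsInternal gr) (hbd : ∀ i, 2 * n + 1 ≤ i → gr i = ⊥) (hL : L ∈ KS R 1)
    (hHL : HardLef gr n L) {Φ : Module.End K V} (hΦ : IsLam gr n L Φ) {r : ℕ} (hr : 1 ≤ r)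
    (h0 : Φ ^ r ∈ KS R (-r)) : ∀ s, r ≤ s → Φ ^ s ∈ KS R (-s) := by
  have hLh : IsHom gr 2 L := by simpa using hR.kspan.hom hL
  intro s hs
  induction s, hs using Nat.le_induction with
  | base => exact h0
  | succ s hs ih =>
    have h1 : Φ ^ (s + 1) = Φ ^ r * (L ^ (r - 1) * Φ ^ s) := by
      apply LinearMap.ext
      intro x
      refine lef_induction' h hLh hbd hHL
        (p := fun x => (Φ ^ (s + 1)) x = (Φ ^ r * (L ^ (r - 1) * Φ ^ s)) x) ?_ ?_ x
      · intro a b ha hb; rw [map_add, map_add, ha, hb]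
      · intro i hi a ha hp j
        by_cases hjn : j ≤ n - i
        · rw [Module.End.mul_apply, Module.End.mul_apply]
          by_cases hj : j < s
          · rw [lam_pow_gt hΦ hi ha hp hjn (show j < s + 1 by omega),
              lam_pow_gt hΦ hi ha hp hjn hj, map_zero, map_zero]
          · rw [lam_pow hΦ hi ha hp hjn s (by omega), ← Module.End.mul_apply (L ^ (r - 1)),
              ← pow_add]
            by_cases hj' : j < s + 1
            · rw [lam_pow_gt hΦ hi ha hp hjn hj',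
                lam_pow_gt hΦ hi ha hp (by omega) (show r - 1 + (j - s) < r by omega)]
            · rw [lam_pow hΦ hi ha hp hjn (s + 1) (by omega),
                lam_pow hΦ hi ha hp (show r - 1 + (j - s) ≤ n - i by omega) r (by omega),
                show r - 1 + (j - s) - r = j - (s + 1) by omega]
        · rw [L_pow_gt hp (by omega), map_zero, map_zero]
    rw [h1]
    exact hR.kspan.cast (hR.kspan.mul h0 (hR.kspan.mul (hR.kspan.pow hL (r - 1)) ih))
      (by push_cast [Nat.cast_sub hr]; ring)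

end Pool.Agent.U360.SF
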