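import Pool.Agent.U360.SF.Core
import Pool.Agent.H914R2.KDesc2

/-!
# Descent of the coefficients in the outer degrees

If for `c ≥ r` the inverse of `L ^ c` from degree `n + c` to degree `n - c` is in the span of the rational
algebra `R`, then for `c ≥ r` it is in `R`, and so are the projectors to the degrees `n ± c`.
-/

open Polynomial Finset

namespace Pool.Agent.U360.SF

open Pool.Agent.H914 Pool.Agent.H447

variable {K : Type*} [Field K] {V : Type*} [AddCommGroup V] [Module K V]
  {gr : ℕ → Submodule K V} {n : ℕ} {L : Module.End K V}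

/-- The projector to the degrees `≥ m`. -/
noncomputable def Aop (h : DirectSum.IsInternal gr) (m : ℕ) : Module.End K V :=
  1 - ∑ l ∈ range m, proj h l

/-- The projector to the degrees `≤ 2 n - m`. -/
noncomputable def Bop (h : DirectSum.IsInternal gr) (n m : ℕ) : Module.End K V :=
  1 - ∑ l ∈ range m, proj h (2 * n - l)

lemma Aop_low (h : DirectSum.IsInternal gr) {m l : ℕ} (hl : l < m) {a : V} (ha : a ∈ gr l) :
    Aop h m a = 0 := by
  rw [Aop, LinearMap.sub_apply, Module.End.one_apply, LinearMap.sum_apply,
    Finset.sum_eq_single l, proj_same h ha, sub_self]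
  · intro l' _ hl'; exact proj_ne h ha (Ne.symm hl')
  · intro h'; exact absurd (Finset.mem_range.2 hl) h'

lemma Aop_high (h : DirectSum.IsInternal gr) {m l : ℕ} (hl : m ≤ l) {a : V} (ha : a ∈ gr l) :
    Aop h m a = a := by
  rw [Aop, LinearMap.sub_apply, Module.End.one_apply, LinearMap.sum_apply,
    Finset.sum_eq_zero, sub_zero]
  intro l' hl'
  rw [Finset.mem_range] at hl'
  exact proj_ne h ha (by omega)

lemma Bop_high (h : DirectSum.IsInternal gr) (hbd : ∀ i, 2 * n + 1 ≤ i → gr i = ⊥) {m l : ℕ}
    (hl : 2 * n - m < l) {a : V} (ha : a ∈ gr l) : Bop h n m a = 0 := by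
  by_cases hl2 : 2 * n < l
  · rw [hbd l (by omega)] at ha
    rw [(Submodule.mem_bot _).1 ha, map_zero]
  · rw [Bop, LinearMap.sub_apply, Module.End.one_apply, LinearMap.sum_apply,
      Finset.sum_eq_single (2 * n - l), show 2 * n - (2 * n - l) = l by omega,
      proj_same h ha, sub_self]
    · intro l' hl' hne
      rw [Finset.mem_range] at hl'
      exact proj_ne h ha (by omega)
    · intro h'; exact absurd (Finset.mem_range.2 (by omega)) h'

lemma Bop_low (h : DirectSum.IsInternal gr) {m l : ℕ} (hl : l ≤ 2 * n - m) {a : V}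
    (hm : m ≤ n) (ha : a ∈ gr l) : Bop h n m a = a := by
  rw [Bop, LinearMap.sub_apply, Module.End.one_apply, LinearMap.sum_apply,
    Finset.sum_eq_zero, sub_zero]
  intro l' hl'
  rw [Finset.mem_range] at hl'
  exact proj_ne h ha (by omega)

/-- Truncated operators of degree `-c` are supported in degree `n + c`. -/
lemma trunc_supp (h : DirectSum.IsInternal gr) (hbd : ∀ i, 2 * n + 1 ≤ i → gr i = ⊥) {m c : ℕ}
    (hc : c + m = n) {θ : Module.End K V} (hθ : IsHom gr (2 * (-(c : ℤ))) θ) {l : ℕ}
    (hl : l ≠ n + c) {a : V} (ha : a ∈ gr l) : (Aop h m * θ * Bop h n m) a = 0 := by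
  rw [Module.End.mul_apply, Module.End.mul_apply]
  by_cases h1 : 2 * n - m < l
  · rw [Bop_high h hbd h1 ha, map_zero, map_zero]
  · rw [Bop_low h (by omega) (by omega) ha]
    have h2 := hθ l a (by rw [grZ_natCast]; exact ha)
    by_cases h3 : 2 * c ≤ l
    · rw [show (l : ℤ) + 2 * -(c : ℤ) = ((l - 2 * c : ℕ) : ℤ) by omega, grZ_natCast] at h2
      exact Aop_low h (by omega) h2
    · rw [grZ_of_neg (by omega)] at h2
      rw [(Submodule.mem_bot _).1 h2, map_zero]

lemma trunc_top (h : DirectSum.IsInternal gr) {m c : ℕ}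
    (hc : c + m = n) {θ : Module.End K V} (hθ : IsHom gr (2 * (-(c : ℤ))) θ) {a : V}
    (ha : a ∈ gr (n + c)) : (Aop h m * θ * Bop h n m) a = θ a ∧ θ a ∈ gr (n - c) := by
  have h2 := hθ (n + c : ℕ) a (by rw [grZ_natCast]; exact ha)
  rw [show ((n + c : ℕ) : ℤ) + 2 * -(c : ℤ) = ((n - c : ℕ) : ℤ) by omega, grZ_natCast] at h2
  refine ⟨?_, h2⟩
  rw [Module.End.mul_apply, Module.End.mul_apply, Bop_low h (by omega) (by omega) ha,
    Aop_high h (by omega) h2]

variable [CharZero K]

lemma Aop_mem {R : ℤ → Module.End K V → Prop} (hR : OpAlg gr R) (h : DirectSum.IsInternal gr)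
    {m : ℕ} (hp : ∀ l < m, R 0 (proj h l)) : R 0 (Aop h m) := by
  apply hR.sub hR.one
  apply hR.sum
  intro l hl
  exact hp l (Finset.mem_range.1 hl)

lemma Bop_mem {R : ℤ → Module.End K V → Prop} (hR : OpAlg gr R) (h : DirectSum.IsInternal gr)
    {m : ℕ} (hp : ∀ l < m, R 0 (proj h (2 * n - l))) : R 0 (Bop h n m) := by
  apply hR.sub hR.one
  apply hR.sum
  intro l hl
  exact hp l (Finset.mem_range.1 hl)

/-- The operators of degree zero supported in degree `n - c`: nilpotency from the traces. -/
lemma nilp_of_traces' [Module.Finite K V] {g P : Module.End K V} (hPg : P * g = g)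
    (hgP : g * P = g) (hPP : P * P = P)
    (htr : ∀ k : ℕ, LinearMap.trace K V (g ^ (k + 1)) = LinearMap.trace K V P) :
    IsNilpotent (g - P) := by
  have h1 : ∀ k j : ℕ, LinearMap.trace K V ((g - P) ^ k * g ^ (j + 1)) =
      if k = 0 then LinearMap.trace K V P else 0 := by
    intro k
    induction k with
    | zero => intro j; rw [pow_zero, one_mul, htr, if_pos rfl]
    | succ k ih =>
      intro j
      have e1 : (g - P) ^ (k + 1) * g ^ (j + 1) =
          (g - P) ^ k * g ^ (j + 1 + 1) - (g - P) ^ k * g ^ (j + 1) := by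
        have e2 : (g - P) * g ^ (j + 1) = g ^ (j + 1 + 1) - g ^ (j + 1) := by
          rw [sub_mul, ← pow_succ', pow_succ' g j, ← mul_assoc P, hPg]
        rw [pow_succ, mul_assoc, e2, mul_sub]
      rw [e1, map_sub, ih, ih, sub_self, if_neg (Nat.succ_ne_zero k)]
  apply isNilpotent_of_trace_pow
  intro k
  induction k with
  | zero =>
    have := htr 0
    rw [zero_add, pow_one] at this
    rw [zero_add, pow_one, map_sub, this, sub_self]
  | succ k ih =>
    have e3 : (g - P) ^ (k + 1) * P = (g - P) ^ (k + 1) := by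
      rw [pow_succ, mul_assoc, sub_mul, hgP, hPP]
    have e4 : (g - P) ^ (k + 1 + 1) = (g - P) ^ (k + 1) * g - (g - P) ^ (k + 1) := by
      rw [pow_succ _ (k + 1), mul_sub, e3]
    have e5 := h1 (k + 1) 0
    rw [zero_add, pow_one, if_neg (Nat.succ_ne_zero k)] at e5
    rw [e4, map_sub, e5, ih, sub_self]

/-- **Descent in the outer degrees.** -/
theorem descent_outer [Module.Finite K V] {R : ℤ → Module.End K V → Prop} (hR : OpAlg gr R)
    (h : DirectSum.IsInternal gr) (hbd : ∀ i, 2 * n + 1 ≤ i → gr i = ⊥)
    (hstr : ∀ y, R 0 y → ∃ q : ℚ, LinearMap.trace K V (par h * y) = q)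
    (hL : R 1 L) (hHL : HardLef gr n L) {r : ℕ}
    (hθ : ∀ c, r ≤ c → c ≤ n → ∃ θ ∈ KS R (-c), ∀ a ∈ gr (n - c), θ ((L ^ c) a) = a) :
    ∀ m c, c + m = n → r ≤ c → R 0 (proj h (n - c)) ∧ R 0 (proj h (n + c)) ∧
      ∃ θ, R (-c) θ ∧ (∀ l, l ≠ n + c → ∀ a ∈ gr l, θ a = 0) ∧
        ∀ a ∈ gr (n - c), θ ((L ^ c) a) = a := by
  obtain ⟨ret, hret⟩ := exists_retract K
  have hLh : IsHom gr 2 L := by simpa using hR.hom hL
  intro m
  induction m using Nat.strong_induction_on with
  | _ m ih =>
    intro c hc hrc
    have hAR : R 0 (Aop h m) := by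
      apply Aop_mem hR h
      intro l hl
      have := (ih l hl (n - l) (by omega) (by omega)).1
      rwa [show n - (n - l) = l by omega] at this
    have hBR : R 0 (Bop h n m) := by
      apply Bop_mem hR h
      intro l hl
      have := (ih l hl (n - l) (by omega) (by omega)).2.1
      rwa [show n + (n - l) = 2 * n - l by omega] at this
    obtain ⟨Θ, hΘK, hΘ⟩ := hθ c hrc (by omega)
    have hΘh := hR.kspan.hom hΘK
    set A := Aop h m with hA
    set B := Bop h n m with hB
    set T := A * Θ * B with hT
    set P := proj h (n - c) with hP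
    have hPP : P * P = P := proj_mul_proj h (n - c)
    have hTK : T ∈ KS R (-c) := hR.kspan.cast (hR.kspan.mul (hR.kspan.mul
      (Submodule.subset_span hAR) hΘK) (Submodule.subset_span hBR)) (by ring)
    have hTsupp : ∀ l, l ≠ n + c → ∀ a ∈ gr l, T a = 0 := fun l hl a ha =>
      trunc_supp h hbd hc hΘh hl ha
    have hTtop : ∀ a ∈ gr (n + c), T a = Θ a ∧ Θ a ∈ gr (n - c) := fun a ha =>
      trunc_top h hc hΘh ha
    have hTL : T * L ^ c = P := by
      apply gr_ext h
      intro l a ha
      rw [Module.End.mul_apply]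
      by_cases hl : l = n - c
      · subst hl
        have h1 := pow_L_mem hLh ha c
        rw [show n - c + 2 * c = n + c by omega] at h1
        rw [proj_same h ha, (hTtop _ h1).1, hΘ a ha]
      · rw [proj_ne h ha hl, hTsupp (l + 2 * c) (by omega) _ (pow_L_mem hLh ha c)]
    have hAT : A * T = T := by
      apply gr_ext h
      intro l a ha
      rw [Module.End.mul_apply]
      by_cases hl : l = n + c
      · subst hl
        rw [(hTtop a ha).1, Aop_high h (by omega) (hTtop a ha).2]
      · rw [hTsupp l hl a ha, map_zero]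
    have hTB : T * B = T := by
      apply gr_ext h
      intro l a ha
      rw [Module.End.mul_apply]
      by_cases hl2 : 2 * n - m < l
      · rw [Bop_high h hbd hl2 ha, map_zero, hTsupp l (by omega) a ha]
      · rw [Bop_low h (by omega) (by omega) ha]
    -- the twist
    obtain ⟨z, hzR, hz⟩ := hR.exists_twist h hstr (ret := ret) hTK
    set z' := A * z * B with hz'
    have hz'R : R (-c) z' := hR.cast (hR.mul (hR.mul hAR hzR) hBR) (by ring)
    have hzh := hR.hom hzR
    have hz'supp : ∀ l, l ≠ n + c → ∀ a ∈ gr l, z' a = 0 := fun l hl a ha =>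
      trunc_supp h hbd hc hzh hl ha
    have hz'top : ∀ a ∈ gr (n + c), z' a ∈ gr (n - c) := fun a ha => by
      rw [(trunc_top h hc hzh ha).1]; exact (trunc_top h hc hzh ha).2
    have hAh : IsHom gr (2 * 0) A := hR.hom hAR
    have hz'tr : ∀ x, R c x → LinearMap.trace K V (par h * (z' * x)) =
        ((ret (LinearMap.trace K V (par h * (T * x))) : ℚ) : K) := by
      intro x hx
      have e1 : LinearMap.trace K V (par h * (z' * x)) =
          LinearMap.trace K V (par h * (z * (B * x * A))) := by
        rw [hz', show A * z * B * x = A * (z * B * x) by simp only [mul_assoc],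
          str_comm h hAh]
        simp only [mul_assoc]
      have e2 : LinearMap.trace K V (par h * (T * (B * x * A))) =
          LinearMap.trace K V (par h * (T * x)) := by
        rw [show T * (B * x * A) = (T * B * x) * A by simp only [mul_assoc], ← str_comm h hAh,
          hTB, ← mul_assoc A, hAT]
      rw [e1, hz _ (hR.cast (hR.mul (hR.mul hBR hx) hAR) (by ring)), e2]
    set g := z' * L ^ c with hg
    have hLc : R c (L ^ c) := hR.cast (hR.pow hL c) (by ring)
    have hgR : R 0 g := hR.cast (hR.mul hz'R hLc) (by ring)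
    have hgmem : ∀ a ∈ gr (n - c), g a ∈ gr (n - c) := by
      intro a ha
      have h1 := pow_L_mem hLh ha c
      rw [show n - c + 2 * c = n + c by omega] at h1
      exact hz'top _ h1
    have hg0 : ∀ l, l ≠ n - c → ∀ a ∈ gr l, g a = 0 := by
      intro l hl a ha
      exact hz'supp (l + 2 * c) (by omega) _ (pow_L_mem hLh ha c)
    have hPg : P * g = g := by
      apply gr_ext h
      intro l a ha
      rw [Module.End.mul_apply]
      by_cases hl : l = n - c
      · subst hl
        exact proj_same h (hgmem a ha)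
      · rw [hg0 l hl a ha, map_zero]
    have hgP : g * P = g := by
      apply gr_ext h
      intro l a ha
      rw [Module.End.mul_apply]
      by_cases hl : l = n - c
      · subst hl
        rw [proj_same h ha]
      · rw [proj_ne h ha hl, map_zero, hg0 l hl a ha]
    have hparP : par h * P = (-1 : K) ^ (n - c) • P := by
      apply LinearMap.ext
      intro a
      rw [Module.End.mul_apply, par, scal_apply h _ (H914.proj_mem h _ a), LinearMap.smul_apply]
    have hsgn : (-1 : K) ^ (n - c) ≠ 0 := pow_ne_zero _ (by norm_num)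
    have hstrP : ∀ x, P * x = x → LinearMap.trace K V (par h * x) =
        (-1 : K) ^ (n - c) * LinearMap.trace K V x := by
      intro x hx
      nth_rewrite 1 [← hx]
      rw [← mul_assoc, hparP, smul_mul_assoc, map_smul, smul_eq_mul, hx]
    have hPgk : ∀ k : ℕ, P * g ^ (k + 1) = g ^ (k + 1) := by
      intro k
      rw [pow_succ', ← mul_assoc, hPg]
    have hgk : ∀ k : ℕ, R 0 (g ^ k) := fun k => hR.cast (hR.pow hgR k) (by ring)
    obtain ⟨b, hb⟩ : ∃ b : ℚ, LinearMap.trace K V P = b := by
      refine ⟨Module.finrank K (gr (n - c)), ?_⟩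
      rw [hP, trace_proj]
      push_cast; rfl
    have hstep : ∀ k : ℕ, LinearMap.trace K V (par h * g ^ (k + 1)) =
        ((ret (LinearMap.trace K V (par h * (P * g ^ k))) : ℚ) : K) := by
      intro k
      have e1 : g ^ (k + 1) = z' * (L ^ c * g ^ k) := by
        rw [pow_succ', hg]; simp only [mul_assoc]
      rw [e1, hz'tr _ (hR.cast (hR.mul hLc (hgk k)) (by ring)), ← mul_assoc T, hTL]
    have htr : ∀ k : ℕ, LinearMap.trace K V (g ^ (k + 1)) = LinearMap.trace K V P := by
      have key : ∀ k : ℕ, LinearMap.trace K V (par h * g ^ (k + 1)) =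
          (-1 : K) ^ (n - c) * LinearMap.trace K V P := by
        intro k
        induction k with
        | zero =>
          rw [hstep 0, pow_zero, mul_one, hstrP P hPP, hb,
            show (-1 : K) ^ (n - c) * (b : K) = (((-1) ^ (n - c) * b : ℚ) : K) by push_cast; rfl,
            ret_ratCast hret]
        | succ k ihk =>
          obtain ⟨q, hq⟩ := hstr _ (hgk (k + 1))
          rw [hstep (k + 1), hPgk, hq, ret_ratCast hret, ← hq, ihk]
      intro k
      have h1 := key k
      rw [hstrP _ (hPgk k)] at h1
      exact mul_left_cancel₀ hsgn h1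
    obtain ⟨N, hN⟩ := nilp_of_traces' hPg hgP hPP htr
    -- injectivity
    have hginj : ∀ x ∈ gr (n - c), g x = 0 → x = 0 := by
      intro x hx h0
      have hPx : P x = x := proj_same h hx
      have h1 : ∀ k : ℕ, ((g - P) ^ k) x = (-1 : K) ^ k • x := by
        intro k
        induction k with
        | zero => simp
        | succ k ihk =>
          rw [pow_succ, Module.End.mul_apply, LinearMap.sub_apply, h0, hPx, zero_sub, map_neg, ihk,
            pow_succ, mul_neg_one, neg_smul]
      have h2 := h1 N
      rw [hN, LinearMap.zero_apply] at h2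
      rcases smul_eq_zero.1 h2.symm with h3 | h3
      · exact absurd h3 (pow_ne_zero _ (by norm_num))
      · exact h3
    obtain ⟨q, hq⟩ := exists_poly_inverse (E := g) (S := gr (n - c)) (by
      intro k
      rcases Nat.eq_zero_or_pos k with rfl | hk
      · refine ⟨Module.finrank K V, ?_⟩
        rw [pow_zero, LinearMap.trace_one]
        push_cast; rfl
      · obtain ⟨k, rfl⟩ : ∃ l, k = l + 1 := ⟨k - 1, by omega⟩
        exact ⟨b, by rw [htr, hb]⟩) hgmem hginj
    set θ := ev g q * z' with hθdef
    have hθR : R (-c) θ := hR.cast (hR.mul (hR.ev hgR q) hz'R) (by ring)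
    have hθsupp : ∀ l, l ≠ n + c → ∀ a ∈ gr l, θ a = 0 := by
      intro l hl a ha
      rw [hθdef, Module.End.mul_apply, hz'supp l hl a ha, map_zero]
    have hθinv : ∀ a ∈ gr (n - c), θ ((L ^ c) a) = a := by
      intro a ha
      rw [hθdef, Module.End.mul_apply]
      exact hq a ha
    refine ⟨?_, ?_, θ, hθR, hθsupp, hθinv⟩
    · have e : proj h (n - c) = θ * L ^ c := by
        apply gr_ext h
        intro l a ha
        rw [Module.End.mul_apply]
        by_cases hl : l = n - c
        · subst hl
          rw [proj_same h ha, hθinv a ha]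
        · rw [proj_ne h ha hl, hθsupp (l + 2 * c) (by omega) _ (pow_L_mem hLh ha c)]
      rw [hP, e]
      exact hR.cast (hR.mul hθR (hR.pow hL c)) (by ring)
    · have e : proj h (n + c) = L ^ c * θ := by
        apply gr_ext h
        intro l a ha
        rw [Module.End.mul_apply]
        by_cases hl : l = n + c
        · subst hl
          rw [proj_same h ha]
          obtain ⟨b', hb', hb''⟩ := (hHL (n - c) (by omega)).2 a
            (by rw [show 2 * n - (n - c) = n + c by omega]; exact ha)
          rw [show n - (n - c) = c by omega] at hb''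
          rw [← hb'', hθinv b' hb']
        · rw [proj_ne h ha hl, hθsupp l hl a ha, map_zero]
      rw [e]
      exact hR.cast (hR.mul (hR.pow hL c) hθR) (by ring)

end Pool.Agent.U360.SF
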