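import Pool.Agent.U360.SF.Core
import Pool.Agent.TH125.Gal.Lef

/-!
# Ranks of algebraic classes on `Y` from those on `Y × Z`
-/

open CategoryTheory AlgebraicGeometry Finset

universe u v

namespace Pool.Agent.U360.SF

open Pool.Agent.H914 Pool.Agent.H914.VarClass Pool.Agent.H914.VarClass.Obj
  Pool.Agent.H914.WeilCohomology Pool.Agent.H447 Pool.Agent.W534

variable {k : Type u} [Field k] {𝒱 : VarClass k} {ops : CycleOps 𝒱}
  {W : WeilCohomology.{u, v} ops} {X Y Z : 𝒱.Obj}

lemma span_cast {q q' : ℤ} (h : q = q') {γ : W.H X} (hγ : γ ∈ spanCycles W X q) :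
    γ ∈ spanCycles W X q' := h ▸ hγ

lemma span_mul {q : ℤ} {p : ℕ} {z : X.Cycles} (hz : X.IsCyc p z) {γ : W.H X}
    (hγ : γ ∈ spanCycles W X q) : W.cl X z * γ ∈ spanCycles W X (q + p) := by
  induction hγ using Submodule.span_induction with
  | mem x hx =>
    obtain ⟨p', hp', w, hw, rfl⟩ := hx
    rw [← W.cl_mul]
    exact Submodule.subset_span ⟨p + p', by push_cast; omega, _, ops.mul_mem hz hw, rfl⟩
  | zero => rw [mul_zero]; exact Submodule.zero_mem _
  | add x y _ _ hx hy => rw [mul_add]; exact Submodule.add_mem _ hx hy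
  | smul c x _ hx => rw [mul_smul_comm]; exact Submodule.smul_mem _ _ hx

lemma span_pow_mul {q : ℤ} {z : X.Cycles} (hz : X.IsCyc 1 z) {γ : W.H X}
    (hγ : γ ∈ spanCycles W X q) (m : ℕ) :
    (LinearMap.mulLeft W.K (W.cl X z) ^ m) γ ∈ spanCycles W X (q + m) := by
  induction m with
  | zero => simpa using hγ
  | succ m ih =>
    rw [pow_succ', Module.End.mul_apply, LinearMap.mulLeft_apply]
    exact span_cast (by push_cast; ring) (span_mul hz ih)

lemma span_map (f : X ⟶ Y) {q : ℤ} {γ : W.H Y} (hγ : γ ∈ spanCycles W Y q) :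
    W.map f γ ∈ spanCycles W X q := by
  induction hγ using Submodule.span_induction with
  | mem x hx =>
    obtain ⟨p', hp', w, hw, rfl⟩ := hx
    rw [← W.cl_pull]
    exact Submodule.subset_span ⟨p', hp', _, ops.pull_mem f hw, rfl⟩
  | zero => rw [map_zero]; exact Submodule.zero_mem _
  | add x y _ _ hx hy => rw [map_add]; exact Submodule.add_mem _ hx hy
  | smul c x _ hx => rw [map_smul]; exact Submodule.smul_mem _ _ hx

lemma span_push {q : ℤ} {γ : W.H (Y.prod Z)} (hγ : γ ∈ spanCycles W (Y.prod Z) q) :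
    W.push (fst Y Z) γ ∈ spanCycles W Y (q - Z.dim) := by
  induction hγ using Submodule.span_induction with
  | mem x hx =>
    obtain ⟨p, hp, w, hw, rfl⟩ := hx
    by_cases hpz : Z.dim ≤ p
    · rw [← W.cl_push]
      refine Submodule.subset_span ⟨p - Z.dim, by omega, _, ops.push_mem _ hw ?_, rfl⟩
      rw [dim_prod]; omega
    · have h1 := W.push_mem (fst Y Z) (W.cl_mem hw)
      rw [dim_prod, grZ_of_neg (by push_cast; omega)] at h1
      rw [(Submodule.mem_bot _).1 h1]
      exact Submodule.zero_mem _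
  | zero => rw [map_zero]; exact Submodule.zero_mem _
  | add x y _ _ hx hy => rw [map_add]; exact Submodule.add_mem _ hx hy
  | smul c x _ hx => rw [map_smul]; exact Submodule.smul_mem _ _ hx

lemma span_le_gr {p : ℕ} {γ : W.H X} (hγ : γ ∈ spanCycles W X p) : γ ∈ W.gr X (2 * p) := by
  induction hγ using Submodule.span_induction with
  | mem x hx =>
    obtain ⟨p', hp', w, hw, rfl⟩ := hx
    have : p' = p := by exact_mod_cast hp'
    subst this
    exact W.cl_mem hw
  | zero => exact Submodule.zero_mem _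
  | add x y _ _ hx hy => exact Submodule.add_mem _ hx hy
  | smul c x _ hx => exact Submodule.smul_mem _ _ hx

/-- The push-forward of a class from the second factor. -/
lemma push_snd {l : ℕ} {w : W.H Z} (hw : w ∈ W.gr Z (2 * l)) :
    W.push (fst Y Z) (W.map (snd Y Z) w) = W.tr Z w • (1 : W.H Y) := by
  apply W.tr_ext
  intro c
  rw [W.tr_push, W.even_comm (W.map_mem _ hw), W.tr_prod, smul_mul_assoc, one_mul, map_smul,
    smul_eq_mul, mul_comm]

section Factor

variable {F : Y.Cycles} {E : Z.Cycles}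

/-- The class of `E` on `Y × Z`. -/
noncomputable def eC (W : WeilCohomology.{u, v} ops) (Y : 𝒱.Obj) {Z : 𝒱.Obj} (E : Z.Cycles) :
    W.H (Y.prod Z) := W.map (snd Y Z) (W.cl Z E)

lemma eC_mem (hE : Z.IsCyc 1 E) : eC W Y E ∈ W.gr (Y.prod Z) (2 * 1) :=
  W.map_mem _ (W.cl_mem hE)

lemma clE_pow_mem (hE : Z.IsCyc 1 E) (l : ℕ) : W.cl Z E ^ l ∈ W.gr Z (2 * l) := by
  induction l with
  | zero => simpa using W.one_mem Z
  | succ l ih =>
    rw [pow_succ]
    exact W.mul_mem ih (W.cl_mem hE)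

lemma eC_pow (l : ℕ) : eC W Y E ^ l = W.map (snd Y Z) (W.cl Z E ^ l) := by
  rw [eC, map_pow]

lemma eC_pow_top (hE : Z.IsCyc 1 E) : eC W Y E ^ (Z.dim + 1) = 0 := by
  have h1 := clE_pow_mem (W := W) hE (Z.dim + 1)
  rw [W.gr_eq_bot Z _ (by omega)] at h1
  rw [eC_pow, (Submodule.mem_bot _).1 h1, map_zero]

/-- The components. -/
noncomputable def tau (W : WeilCohomology.{u, v} ops) (Y : 𝒱.Obj) {Z : 𝒱.Obj} (E : Z.Cycles) :
    W.H (Y.prod Z) →ₗ[W.K] (Fin (Z.dim + 1) → W.H Y) :=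
  LinearMap.pi fun l => W.push (fst Y Z) ∘ₗ LinearMap.mulLeft W.K (eC W Y E ^ (Z.dim - (l : ℕ)))

lemma tau_apply (y : W.H (Y.prod Z)) (l : Fin (Z.dim + 1)) :
    tau W Y E y l = W.push (fst Y Z) (eC W Y E ^ (Z.dim - (l : ℕ)) * y) := rfl

/-- The operator on the components. -/
noncomputable def nOp (W : WeilCohomology.{u, v} ops) (Y : 𝒱.Obj) (F : Y.Cycles) (z : ℕ) :
    (Fin (z + 1) → W.H Y) →ₗ[W.K] (Fin (z + 1) → W.H Y) :=
  LinearMap.pi fun l => LinearMap.mulLeft W.K (W.cl Y F) ∘ₗ LinearMap.proj l +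
    (if h : 0 < (l : ℕ) then LinearMap.proj (⟨(l : ℕ) - 1, by omega⟩ : Fin (z + 1)) else 0)

lemma tau_mul (hF : Y.IsCyc 1 F) (hE : Z.IsCyc 1 E) (y : W.H (Y.prod Z)) :
    tau W Y E ((W.map (fst Y Z) (W.cl Y F) + eC W Y E) * y) = nOp W Y F Z.dim (tau W Y E y) := by
  funext l
  have h1 : W.push (fst Y Z) (eC W Y E ^ (Z.dim - (l : ℕ)) *
      ((W.map (fst Y Z) (W.cl Y F) + eC W Y E) * y)) =
      W.cl Y F * W.push (fst Y Z) (eC W Y E ^ (Z.dim - (l : ℕ)) * y) +
      W.push (fst Y Z) (eC W Y E ^ (Z.dim - (l : ℕ) + 1) * y) := by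
    rw [add_mul, mul_add, map_add, W.mul_push _ (W.cl_mem hF), ← mul_assoc, ← mul_assoc,
      ← mul_assoc, ← pow_succ, W.even_comm (W.map_mem _ (W.cl_mem hF))]
  rw [tau_apply, h1]
  simp only [nOp, LinearMap.pi_apply, LinearMap.add_apply, LinearMap.comp_apply,
    LinearMap.proj_apply, LinearMap.mulLeft_apply, tau_apply]
  congr 1
  by_cases hl : 0 < (l : ℕ)
  · rw [dif_pos hl, LinearMap.proj_apply, tau_apply]
    congr 3
    simp only
    omega
  · rw [dif_neg hl, LinearMap.zero_apply]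
    have : (l : ℕ) = 0 := by omega
    rw [this, Nat.sub_zero, eC_pow_top hE, zero_mul, map_zero]

lemma tau_pow (hF : Y.IsCyc 1 F) (hE : Z.IsCyc 1 E) (m : ℕ) (y : W.H (Y.prod Z)) :
    tau W Y E ((LinearMap.mulLeft W.K (W.map (fst Y Z) (W.cl Y F) + eC W Y E) ^ m) y) =
      (nOp W Y F Z.dim ^ m) (tau W Y E y) := by
  induction m with
  | zero => rfl
  | succ m ih =>
    rw [pow_succ', Module.End.mul_apply, LinearMap.mulLeft_apply, tau_mul hF hE, ih, pow_succ',
      Module.End.mul_apply]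

lemma tau_mem (hE : Z.IsCyc 1 E) {j : ℤ} {y : W.H (Y.prod Z)}
    (hy : y ∈ spanCycles W (Y.prod Z) j) (l : Fin (Z.dim + 1)) :
    tau W Y E y l ∈ spanCycles W Y (j - (l : ℕ)) := by
  rw [tau_apply]
  have h1 := span_pow_mul (W := W) (ops.pull_mem (snd Y Z) hE) hy (Z.dim - (l : ℕ))
  rw [LinearMap.pow_mulLeft, LinearMap.mulLeft_apply, W.cl_pull] at h1
  have h2 := span_push h1
  have hl := l.2
  exact span_cast (by omega) h2

/-- The element with given components. -/
lemma tau_sum (hE : Z.IsCyc 1 E) (b : Fin (Z.dim + 1) → W.H Y) :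
    tau W Y E (∑ i : Fin (Z.dim + 1), eC W Y E ^ (i : ℕ) * W.map (fst Y Z) (b i)) =
      W.tr Z (W.cl Z E ^ Z.dim) • b := by
  funext l
  rw [tau_apply, Finset.mul_sum, map_sum, Finset.sum_eq_single l]
  · have hl := l.2
    rw [← mul_assoc, ← pow_add, show Z.dim - (l : ℕ) + (l : ℕ) = Z.dim by omega, W.push_mul, eC_pow,
      push_snd (clE_pow_mem hE _), smul_mul_assoc, one_mul, Pi.smul_apply]
  · intro i _ hil
    have hl := l.2
    have hi := i.2
    have hne : (i : ℕ) ≠ (l : ℕ) := fun h => hil (Fin.ext h)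
    rw [← mul_assoc, ← pow_add, W.push_mul, eC_pow, push_snd (clE_pow_mem hE _),
      W.tr_eq_zero (clE_pow_mem hE _) (by omega), zero_smul, zero_mul]
  · intro h'; exact absurd (Finset.mem_univ _) h'

/-- The degree of the top power does not vanish. -/
lemma tr_top_ne (hHL : HardLefschetz W Z E) (h1 : (1 : W.H Z) ≠ 0) (hE : Z.IsCyc 1 E) :
    W.tr Z (W.cl Z E ^ Z.dim) ≠ 0 := by
  intro h0
  have h2 : W.cl Z E ^ Z.dim = 0 := by
    apply W.nondeg
    intro b
    refine gr_induction (W.isInternal Z) (p := fun b => W.tr Z (W.cl Z E ^ Z.dim * b) = 0) ?_ ?_ b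
    · intro i b hb
      by_cases hi : i = 0
      · subst hi
        rw [W.gr_zero] at hb
        obtain ⟨c, rfl⟩ := Submodule.mem_span_singleton.1 hb
        rw [mul_smul_comm, mul_one, map_smul, h0, smul_zero]
      · exact W.tr_eq_zero (W.mul_mem (clE_pow_mem hE _) hb) (by omega)
    · intro a b ha hb
      rw [mul_add, map_add, ha, hb, add_zero]
  have h3 := (hHL 0 (by omega)).1 1 (W.one_mem Z) (by
    rw [LinearMap.pow_mulLeft, LinearMap.mulLeft_apply, mul_one, Nat.sub_zero, h2])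
  exact h1 h3

/-- Ranks of images and kernels. -/
lemma finrank_map_add_inf {K V V' : Type*} [Field K] [AddCommGroup V] [Module K V]
    [AddCommGroup V'] [Module K V'] [Module.Finite K V] (S : Submodule K V) (T : V →ₗ[K] V') :
    Module.finrank K (S.map T) + Module.finrank K (S ⊓ LinearMap.ker T : Submodule K V) =
      Module.finrank K S := by
  have h1 := LinearMap.finrank_range_add_finrank_ker (T.domRestrict S)
  rw [LinearMap.range_domRestrict] at h1
  have h2 : (LinearMap.ker (T.domRestrict S)).map S.subtype = S ⊓ LinearMap.ker T := by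
    ext x
    constructor
    · rintro ⟨⟨c, hc⟩, hc', rfl⟩
      exact ⟨hc, hc'⟩
    · rintro ⟨hx, hx'⟩
      exact ⟨⟨x, hx⟩, hx', rfl⟩
  have h3 : Module.finrank K (LinearMap.ker (T.domRestrict S)) =
      Module.finrank K (S ⊓ LinearMap.ker T : Submodule K V) := by
    rw [← h2]
    exact (Submodule.equivMapOfInjective _ (Submodule.subtype_injective _) _).finrank_eq
  rw [← h3]
  exact h1

lemma finrank_le_of_inj {K V V' : Type*} [Field K] [AddCommGroup V] [Module K V] [AddCommGroup V']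
    [Module K V'] [Module.Finite K V] [Module.Finite K V'] {A : Submodule K V}
    {B : Submodule K V'} {T : V →ₗ[K] V'} (hT : ∀ x ∈ A, T x ∈ B)
    (hinj : ∀ x ∈ A, T x = 0 → x = 0) : Module.finrank K A ≤ Module.finrank K B := by
  have h1 := finrank_map_add_inf A T
  have h2 : A ⊓ LinearMap.ker T = ⊥ := by
    rw [eq_bot_iff]
    rintro x ⟨hx, hx0⟩
    exact (Submodule.mem_bot _).2 (hinj x hx hx0)
  rw [h2, finrank_bot, add_zero] at h1
  rw [← h1]
  apply Submodule.finrank_mono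
  rintro _ ⟨x, hx, rfl⟩
  exact hT x hx

/-- **The inequality for the ranks on `Y` and on `Y × Z`.** -/
theorem sum_rank_add_le (hF : Y.IsCyc 1 F) (hE : Z.IsCyc 1 E) (hHL : HardLefschetz W Z E)
    (h1 : (1 : W.H Z) ≠ 0) {j q : ℤ} {m : ℕ}
    (hmap : ∀ y ∈ spanCycles W (Y.prod Z) j,
      (LinearMap.mulLeft W.K (W.map (fst Y Z) (W.cl Y F) + eC W Y E) ^ m) y ∈
        spanCycles W (Y.prod Z) q)
    (hinj : ∀ y ∈ spanCycles W (Y.prod Z) j,
      (LinearMap.mulLeft W.K (W.map (fst Y Z) (W.cl Y F) + eC W Y E) ^ m) y = 0 → y = 0) :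
    ∑ l : Fin (Z.dim + 1), Module.finrank W.K (spanCycles W Y (q - (l : ℕ))) +
        Module.finrank W.K (spanCycles W (Y.prod Z) j) ≤
      ∑ l : Fin (Z.dim + 1), Module.finrank W.K (spanCycles W Y (j - (l : ℕ))) +
        Module.finrank W.K (spanCycles W (Y.prod Z) q) := by
  classical
  have hδ := tr_top_ne hHL h1 hE
  set δ := W.tr Z (W.cl Z E ^ Z.dim) with hδdef
  set M : W.H (Y.prod Z) →ₗ[W.K] W.H (Y.prod Z) :=
    LinearMap.mulLeft W.K (W.map (fst Y Z) (W.cl Y F) + eC W Y E) ^ m with hM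
  set ι : ∀ p : ℤ, (∀ l : Fin (Z.dim + 1), spanCycles W Y (p - (l : ℕ))) →ₗ[W.K]
      (Fin (Z.dim + 1) → W.H Y) := fun p =>
    LinearMap.pi fun l => (spanCycles W Y (p - (l : ℕ))).subtype ∘ₗ LinearMap.proj l with hι
  have hιinj : ∀ p, Function.Injective (ι p) := by
    intro p a b hab
    funext l
    exact Subtype.ext (congrFun hab l)
  have hιmem : ∀ (p : ℤ) (y : W.H (Y.prod Z)), y ∈ spanCycles W (Y.prod Z) p →
      tau W Y E y ∈ LinearMap.range (ι p) := fun p y hy =>
    ⟨fun l => ⟨tau W Y E y l, tau_mem hE hy l⟩, rfl⟩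
  -- the image of the target
  have hB : LinearMap.range (ι q) ≤ (spanCycles W (Y.prod Z) q).map (tau W Y E) := by
    rintro _ ⟨b, rfl⟩
    refine ⟨δ⁻¹ • ∑ i : Fin (Z.dim + 1), eC W Y E ^ (i : ℕ) *
        W.map (fst Y Z) (b i : W.H Y), ?_, ?_⟩
    · apply Submodule.smul_mem
      apply Submodule.sum_mem
      intro i _
      have h2 := span_pow_mul (W := W) (ops.pull_mem (snd Y Z) hE) (span_map (fst Y Z) (b i).2)
        (i : ℕ)
      rw [LinearMap.pow_mulLeft, LinearMap.mulLeft_apply, W.cl_pull] at h2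
      exact span_cast (by omega) h2
    · rw [map_smul, tau_sum hE (fun i => (b i : W.H Y)), smul_smul, inv_mul_cancel₀ hδ, one_smul]
      rfl
  -- the image of the source
  have hA : ((spanCycles W (Y.prod Z) j).map M).map (tau W Y E) ≤
      LinearMap.range ((nOp W Y F Z.dim ^ m) ∘ₗ ι j) := by
    rintro _ ⟨_, ⟨y, hy, rfl⟩, rfl⟩
    obtain ⟨a, ha⟩ := hιmem j y hy
    refine ⟨a, ?_⟩
    rw [LinearMap.comp_apply, ha, hM, tau_pow hF hE]
  have hle : (spanCycles W (Y.prod Z) j).map M ≤ spanCycles W (Y.prod Z) q := by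
    rintro _ ⟨y, hy, rfl⟩
    exact hmap y hy
  have hfM : Module.finrank W.K ((spanCycles W (Y.prod Z) j).map M) =
      Module.finrank W.K (spanCycles W (Y.prod Z) j) := by
    have h2 := finrank_map_add_inf (spanCycles W (Y.prod Z) j) M
    have h3 : spanCycles W (Y.prod Z) j ⊓ LinearMap.ker M = ⊥ := by
      rw [eq_bot_iff]
      rintro x ⟨hx, hx0⟩
      exact (Submodule.mem_bot _).2 (hinj x hx hx0)
    rw [h3, finrank_bot, add_zero] at h2
    exact h2
  have e1 := finrank_map_add_inf (spanCycles W (Y.prod Z) q) (tau W Y E)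
  have e2 := finrank_map_add_inf ((spanCycles W (Y.prod Z) j).map M) (tau W Y E)
  have e3 : Module.finrank W.K ((spanCycles W (Y.prod Z) j).map M ⊓
      LinearMap.ker (tau W Y E) : Submodule _ _) ≤ Module.finrank W.K
      (spanCycles W (Y.prod Z) q ⊓ LinearMap.ker (tau W Y E) : Submodule _ _) :=
    Submodule.finrank_mono (inf_le_inf_right _ hle)
  have e4 := Submodule.finrank_mono hB
  have e5 := (Submodule.finrank_mono hA).trans (LinearMap.finrank_range_le _)
  rw [LinearMap.finrank_range_of_inj (hιinj q)] at e4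
  rw [Module.finrank_pi_fintype] at e4 e5
  omega

end Factor

end Pool.Agent.U360.SF
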