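import Mathlib

/-!
# Cancellation of ranks
-/

open Finset

namespace Pool.Agent.U360.SF

/-- The sum of the differences in the degrees `s, s + 1, …, s + M - 1`. -/
lemma tail_le {r : ℤ → ℕ} (hr : ∀ d : ℕ, r (-(d : ℤ)) ≤ r d) {u s : ℕ} (hs : 1 ≤ s)
    (hpos : ∀ d : ℕ, 1 ≤ d → d ≤ u → r (-(d : ℤ)) + 1 ≤ r d) (M : ℕ) :
    ((min M (u + 1 - s) : ℕ) : ℤ) ≤
      ∑ l ∈ range M, ((r ((s + l : ℕ) : ℤ) : ℤ) - r (-((s + l : ℕ) : ℤ))) := by
  induction M with
  | zero => simp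
  | succ M ih =>
    rw [Finset.sum_range_succ]
    have h1 := hr (s + M)
    by_cases h : s + M ≤ u
    · have h2 := hpos (s + M) (by omega) h
      omega
    · omega

/-- If the values of `r` at `-d` are at most those at `d`, and smaller for `1 ≤ d ≤ u`, then the sum over
`p - l`, `0 ≤ l ≤ z`, is smaller than the sum over the opposite numbers. -/
lemma cancel {r : ℤ → ℕ} (hr : ∀ d : ℕ, r (-(d : ℤ)) ≤ r d) {u : ℕ}
    (hpos : ∀ d : ℕ, 1 ≤ d → d ≤ u → r (-(d : ℤ)) + 1 ≤ r d) {n z j : ℕ} :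
    ∑ l ∈ range (z + 1), r ((j : ℤ) - n - (l : ℕ)) + (if 2 * j < 2 * n + z then
      min u (n + z - j) + 1 - max (n - j) (j + 1 - n) else 0) ≤
    ∑ l ∈ range (z + 1), r ((z : ℤ) - ((j : ℤ) - n) - (l : ℕ)) ∨ 2 * n + z ≤ 2 * j := by
  by_cases hp : 2 * j < 2 * n + z
  swap
  · right; omega
  left
  rw [if_pos hp]
  have h1 : ∑ l ∈ range (z + 1), r ((z : ℤ) - ((j : ℤ) - n) - (l : ℕ)) =
      ∑ l ∈ range (z + 1), r ((l : ℕ) - ((j : ℤ) - n)) := by
    rw [← Finset.sum_range_reflect]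
    apply Finset.sum_congr rfl
    intro l hl
    rw [Finset.mem_range] at hl
    congr 1
    have : ((z + 1 - 1 - l : ℕ) : ℤ) = z - l := by omega
    rw [this]; ring
  rw [h1]
  have key : ((min u (n + z - j) + 1 - max (n - j) (j + 1 - n) : ℕ) : ℤ) ≤
      ∑ l ∈ range (z + 1), ((r ((l : ℕ) - ((j : ℤ) - n)) : ℤ) - r ((j : ℤ) - n - (l : ℕ))) := by
    by_cases h0 : j < n
    · have h2 := tail_le hr (u := u) (s := n - j) (by omega) hpos (z + 1)
      refine le_trans ?_ (h2.trans (le_of_eq ?_))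
      · omega
      · apply Finset.sum_congr rfl
        intro l _
        have e1 : ((n - j + l : ℕ) : ℤ) = (l : ℕ) - ((j : ℤ) - n) := by omega
        rw [e1, neg_sub]
    · have hz : z + 1 = (2 * (j - n) + 1) + (z - 2 * (j - n)) := by omega
      rw [hz, Finset.sum_range_add]
      have h5 : ∑ l ∈ range (2 * (j - n) + 1), ((r ((l : ℕ) - ((j : ℤ) - n)) : ℤ) -
          r ((j : ℤ) - n - (l : ℕ))) = 0 := by
        rw [Finset.sum_sub_distrib, sub_eq_zero, ← Finset.sum_range_reflect]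
        apply Finset.sum_congr rfl
        intro l hl
        rw [Finset.mem_range] at hl
        congr 2
        omega
      rw [h5, zero_add]
      have h2 := tail_le hr (u := u) (s := j - n + 1) (by omega) hpos (z - 2 * (j - n))
      refine le_trans ?_ (h2.trans (le_of_eq ?_))
      · omega
      · apply Finset.sum_congr rfl
        intro l _
        have e1 : ((j - n + 1 + l : ℕ) : ℤ) =
          ((2 * (j - n) + 1 + l : ℕ) : ℤ) - ((j : ℤ) - n) := by omega
        have e2 : -((j - n + 1 + l : ℕ) : ℤ) =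
          (j : ℤ) - n - ((2 * (j - n) + 1 + l : ℕ) : ℤ) := by omega
        rw [e1, ← e2, e1]
  rw [Finset.sum_sub_distrib] at key
  have h6 : ((∑ l ∈ range (z + 1), r ((l : ℕ) - ((j : ℤ) - n)) : ℕ) : ℤ) =
      ∑ l ∈ range (z + 1), (r ((l : ℕ) - ((j : ℤ) - n)) : ℤ) := by push_cast; rfl
  have h7 : ((∑ l ∈ range (z + 1), r ((j : ℤ) - n - (l : ℕ)) : ℕ) : ℤ) =
      ∑ l ∈ range (z + 1), (r ((j : ℤ) - n - (l : ℕ)) : ℤ) := by push_cast; rfl
  omega

end Pool.Agent.U360.SF
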