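import Pool.Agent.U360.SF.Desc
import Pool.Agent.U360.SF.Geo
import Pool.Agent.U360.SF.Num
import Pool.Agent.H447R3.DegB
import Pool.Agent.H447R3.KuDefs
import Pool.Agent.W534.UDefs

/-!
# The spread of failures: assembly
-/

open CategoryTheory AlgebraicGeometry Finset

universe u v

namespace Pool.Agent.U360.SF

open Pool.Agent.H914 Pool.Agent.H914.VarClass Pool.Agent.H914.VarClass.Obj
  Pool.Agent.H914.WeilCohomology Pool.Agent.H447 Pool.Agent.W534

variable {k : Type u} [Field k] {𝒱 : VarClass k} {ops : CycleOps 𝒱}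
  {W : WeilCohomology.{u, v} ops} {X Y Z : 𝒱.Obj}

/-- The operator `θ` vanishes outside of the degree `2 n - i`, and there it inverts the map
`L ^ (n - i)` from the degree `i` to the degree `2 n - i`. -/
structure IsInverse {K V : Type*} [Field K] [AddCommGroup V] [Module K V] (gr : ℕ → Submodule K V)
    (n : ℕ) (L : Module.End K V) (i : ℕ) (θ : Module.End K V) : Prop where
  supp : ∀ l, l ≠ 2 * n - i → ∀ a ∈ gr l, θ a = 0
  inv : ∀ a ∈ gr i, θ ((L ^ (n - i)) a) = a

/-- The correspondence `z` induces the inverse of `ξ ^ (n - i) : H^i(X) → H^(2n - i)(X)`, extended by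
zero; here `n = dim X` and `ξ` is the class of `D`. -/
def InducesInverse (W : WeilCohomology.{u, v} ops) (X : 𝒱.Obj) (D : X.Cycles) (i : ℕ)
    (z : (X.prod X).Cycles) : Prop :=
  IsInverse (W.gr X) X.dim (LinearMap.mulLeft W.K (W.cl X D)) i (W.corr (W.cl (X.prod X) z))

/-- The operator which inverts `ξ ^ (n - i) : H^i(X) → H^(2n - i)(X)`, and is zero on the other
degrees, is induced by an algebraic cycle of codimension `i` on `X × X`; here `n = dim X` and `ξ` is
the class of `D`. -/
def InverseAlgebraic (W : WeilCohomology.{u, v} ops) (X : 𝒱.Obj) (D : X.Cycles) (i : ℕ) : Prop :=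
  ∃ z, (X.prod X).IsCyc i z ∧ InducesInverse W X D i z

/-- The three operators attached to the degrees `i` and `2 n - i` are algebraic. -/
def OuterAlgebraic (W : WeilCohomology.{u, v} ops) (X : 𝒱.Obj) (D : X.Cycles) (i : ℕ) : Prop :=
  InverseAlgebraic W X D i ∧ KunnethAt W X i ∧ KunnethAt W X (2 * X.dim - i)

section Rank

lemma KS_eq_KOp (d : ℤ) : KS (ROp W X) d = KOp W X X d := by
  ext y; exact mem_KS_iff

lemma finrank_KS (d : ℤ) : Module.finrank W.K (KS (ROp W X) d) =
    Module.finrank W.K (spanCycles W (X.prod X) (X.dim + d)) := by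
  rw [KS_eq_KOp, finrank_KOp]

lemma dbl_pow_mem {D : X.Cycles} (hD : X.IsCyc 1 D) {d : ℤ} {y : Module.End W.K (W.H X)}
    (hy : y ∈ KS (ROp W X) d) (m : ℕ) :
    (dbl (LinearMap.mulLeft W.K (W.cl X D)) ^ m) y ∈ KS (ROp W X) (d + m) := by
  have hK := (rop_opAlg (W := W) (X := X)).kspan
  have hLK : LinearMap.mulLeft W.K (W.cl X D) ∈ KS (ROp W X) 1 :=
    Submodule.subset_span (rop_mulLeft hD)
  induction m with
  | zero => simpa using hy
  | succ m ih =>
    rw [pow_succ', Module.End.mul_apply, dbl_apply]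
    exact hK.add (hK.cast (hK.mul hLK ih) (by push_cast; ring))
      (hK.cast (hK.mul ih hLK) (by push_cast; ring))

/-- The ranks in opposite degrees. -/
lemma rank_le {D : X.Cycles} (hD : X.IsCyc 1 D) (hHL : HardLefschetz W X D) (d : ℕ) :
    Module.finrank W.K (KS (ROp W X) (-(d : ℤ))) ≤ Module.finrank W.K (KS (ROp W X) d) := by
  have hLh := isHom_mulLeft W hD
  obtain ⟨f, t, hf, -⟩ := exists_sl2 (W.isInternal X) hLh W_hbd hHL
  refine finrank_le_of_inj (T := dbl (LinearMap.mulLeft W.K (W.cl X D)) ^ (2 * d)) ?_ ?_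
  · intro y hy
    exact (rop_opAlg (W := W) (X := X)).kspan.cast (dbl_pow_mem hD hy (2 * d)) (by push_cast; ring)
  · intro x hx h0
    refine dbl_inj' (W.isInternal X) t (r := d) ?_ h0
    simpa using (rop_opAlg (W := W) (X := X)).kspan.hom hx

lemma surj_of_rank {D : X.Cycles} (hD : X.IsCyc 1 D) (hHL : HardLefschetz W X D) {d : ℕ}
    (hr : Module.finrank W.K (KS (ROp W X) d) = Module.finrank W.K (KS (ROp W X) (-(d : ℤ)))) :
    ∀ y ∈ KS (ROp W X) d, ∃ z ∈ KS (ROp W X) (-(d : ℤ)),
      (dbl (LinearMap.mulLeft W.K (W.cl X D)) ^ (2 * d)) z = y := by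
  have hLh := isHom_mulLeft W hD
  obtain ⟨f, t, hf, -⟩ := exists_sl2 (W.isInternal X) hLh W_hbd hHL
  refine surj_of_finrank_eq ?_ ?_ hr.symm
  · intro y hy
    exact (rop_opAlg (W := W) (X := X)).kspan.cast (dbl_pow_mem hD hy (2 * d)) (by push_cast; ring)
  · intro x hx h0
    refine dbl_inj' (W.isInternal X) t (r := d) ?_ h0
    simpa using (rop_opAlg (W := W) (X := X)).kspan.hom hx

/-- **From one equality of ranks on `X × X` to the outer degrees.** -/
theorem lam_of_rank {D : X.Cycles} (hD : X.IsCyc 1 D) (hHL : HardLefschetz W X D) {d : ℕ}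
    (hd : 1 ≤ d)
    (hr : Module.finrank W.K (KS (ROp W X) d) = Module.finrank W.K (KS (ROp W X) (-(d : ℤ)))) :
    ∃ Φ : Module.End W.K (W.H X), IsLam (W.gr X) X.dim (LinearMap.mulLeft W.K (W.cl X D)) Φ ∧
      ∀ s, d ≤ s → Φ ^ s ∈ KS (ROp W X) (-(s : ℤ)) := by
  have hLh := isHom_mulLeft W hD
  obtain ⟨Φ, hΦh, hΦ⟩ := exists_isLam (W.isInternal X) hLh W_hbd hHL
  have hLK : LinearMap.mulLeft W.K (W.cl X D) ∈ KS (ROp W X) 1 :=
    Submodule.subset_span (rop_mulLeft hD)
  refine ⟨Φ, hΦ, lam_pow_mem_of_le rop_opAlg (W.isInternal X) W_hbd hLK hHL hΦ hd ?_⟩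
  exact lam_pow_mem rop_opAlg (W.isInternal X) W_hbd hLK hHL hΦ (surj_of_rank hD hHL hr)

theorem outer_of_rank {D : X.Cycles} (hD : X.IsCyc 1 D) (hHL : HardLefschetz W X D) {d : ℕ}
    (hd : 1 ≤ d)
    (hr : Module.finrank W.K (KS (ROp W X) d) = Module.finrank W.K (KS (ROp W X) (-(d : ℤ)))) :
    ∀ i, i + d ≤ X.dim → OuterAlgebraic W X D i := by
  obtain ⟨Φ, hΦ, hpow⟩ := lam_of_rank hD hHL hd hr
  have hLh := isHom_mulLeft W hD
  intro i hi
  have h1 := descent_outer (rop_opAlg (W := W) (X := X)) (W.isInternal X) W_hbd rop_str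
    (rop_mulLeft hD) hHL (r := d) (fun c hc hcn => ⟨Φ ^ c, hpow c hc, fun a ha =>
      lam_pow_L_pow hLh W_hbd hHL hΦ hcn ha⟩) i (X.dim - i) (by omega) (by omega)
  rw [show X.dim - (X.dim - i) = i by omega, show X.dim + (X.dim - i) = 2 * X.dim - i by omega]
    at h1
  obtain ⟨hp1, hp2, θ, hθR, hθ0, hθi⟩ := h1
  refine ⟨?_, ?_, ?_⟩
  · obtain ⟨z, hz, rfl⟩ := exists_of_rop (p := i) (by omega) hθR
    exact ⟨z, hz, ⟨hθ0, fun a ha => hθi a ha⟩⟩
  · obtain ⟨z, hz, hzp⟩ := exists_of_rop (p := X.dim) (by omega) hp1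
    refine ⟨z, hz, ?_⟩
    intro j a ha
    rw [hzp]
    by_cases hj : j = i
    · subst hj; rw [if_pos rfl, proj_same _ ha]
    · rw [if_neg hj, proj_ne _ ha hj]
  · obtain ⟨z, hz, hzp⟩ := exists_of_rop (p := X.dim) (by omega) hp2
    refine ⟨z, hz, ?_⟩
    intro j a ha
    rw [hzp]
    by_cases hj : j = 2 * X.dim - i
    · subst hj; rw [if_pos rfl, proj_same _ ha]
    · rw [if_neg hj, proj_ne _ ha hj]

theorem lefschetzB_of_rank {D : X.Cycles} (hD : X.IsCyc 1 D) (hHL : HardLefschetz W X D)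
    (hr : Module.finrank W.K (KS (ROp W X) (1 : ℕ)) =
      Module.finrank W.K (KS (ROp W X) (-((1 : ℕ) : ℤ)))) : LefschetzB W X D := by
  obtain ⟨Φ, hΦ, hpow⟩ := lam_of_rank hD hHL le_rfl hr
  have hLh := isHom_mulLeft W hD
  apply lefschetzB_of_inj hD hHL
  intro c hc
  rcases Nat.eq_zero_or_pos c with rfl | h0
  · refine ⟨1, ?_, fun a _ h => h⟩
    rw [← mem_KS_iff]
    exact (rop_opAlg (W := W) (X := X)).kspan.cast
      (rop_opAlg (W := W) (X := X)).kspan.one (by simp)
  · refine ⟨Φ ^ c, mem_KS_iff.1 (hpow c h0), ?_⟩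
    intro a ha h0'
    obtain ⟨b, hb, hb'⟩ := (hHL (X.dim - c) (by omega)).2 a
      (by rw [show 2 * X.dim - (X.dim - c) = X.dim + c by omega]; exact ha)
    rw [show X.dim - (X.dim - c) = c by omega] at hb'
    rw [← hb', lam_pow_L_pow hLh W_hbd hHL hΦ hc hb] at h0'
    rw [← hb', h0', map_zero]

end Rank

section Top

variable {D : X.Cycles} {E : Z.Cycles}

/-- **The ranks on `X × X × Z` and the ranks on `X × X`.** -/
theorem rank_of_triple (hD : X.IsCyc 1 D) (hHL : HardLefschetz W X D) (hE : Z.IsCyc 1 E)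
    (hHLE : HardLefschetz W Z E) (h1 : (1 : W.H Z) ≠ 0) {j u : ℕ}
    (hj : 2 * j < 2 * X.dim + Z.dim)
    (hpos : ∀ d : ℕ, 1 ≤ d → d ≤ u → Module.finrank W.K (KS (ROp W X) (-(d : ℤ))) + 1 ≤
      Module.finrank W.K (KS (ROp W X) d)) :
    cycleRank W ((X.prod X).prod Z) j +
        (min u (X.dim + Z.dim - j) + 1 - max (X.dim - j) (j + 1 - X.dim)) ≤
      cycleRank W ((X.prod X).prod Z) (((X.prod X).prod Z).dim - j : ℕ) := by
  have hF := boxSum_mem (ops := ops) hD
  have hHLF : HardLefschetz W (X.prod X) (boxSum ops D) :=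
    TH125.Gal.hardLefschetz_prod hD hD hHL hHL
  have hG : ((X.prod X).prod Z).IsCyc 1
      (ops.pull (fst (X.prod X) Z) (boxSum ops D) + ops.pull (snd (X.prod X) Z) E) :=
    (ops.pull_mem _ hF).add (ops.pull_mem _ hE)
  have hHLG := TH125.Gal.hardLefschetz_prod hF hE hHLF hHLE
  have hdim : ((X.prod X).prod Z).dim = 2 * X.dim + Z.dim := by
    rw [dim_prod, dim_prod]; ring
  rw [hdim]
  set m := 2 * X.dim + Z.dim - 2 * j with hm
  have hcl : W.cl _ (ops.pull (fst (X.prod X) Z) (boxSum ops D) +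
      ops.pull (snd (X.prod X) Z) E) =
      W.map (fst (X.prod X) Z) (W.cl _ (boxSum ops D)) + eC W (X.prod X) E := by
    rw [map_add, W.cl_pull, W.cl_pull]; rfl
  have hmap : ∀ x ∈ spanCycles W ((X.prod X).prod Z) j, (LinearMap.mulLeft W.K
      (W.map (fst (X.prod X) Z) (W.cl _ (boxSum ops D)) + eC W (X.prod X) E) ^ m) x ∈
      spanCycles W ((X.prod X).prod Z) ((2 * X.dim + Z.dim - j : ℕ) : ℤ) := by
    intro x hx
    have h2 := span_pow_mul hG hx m
    rw [hcl] at h2
    exact span_cast (by omega) h2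
  have hinj : ∀ x ∈ spanCycles W ((X.prod X).prod Z) j, (LinearMap.mulLeft W.K
      (W.map (fst (X.prod X) Z) (W.cl _ (boxSum ops D)) + eC W (X.prod X) E) ^ m) x = 0 →
      x = 0 := by
    intro x hx h0
    refine (hHLG (2 * j) (by rw [hdim]; omega)).1 x (span_le_gr hx) ?_
    rw [hdim, hcl]
    exact h0
  have hsum := sum_rank_add_le hF hE hHLE h1 hmap hinj
  rw [← Finset.sum_range (fun l => Module.finrank W.K (spanCycles W (X.prod X)
      (((2 * X.dim + Z.dim - j : ℕ) : ℤ) - (l : ℕ)))),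
    ← Finset.sum_range (fun l => Module.finrank W.K (spanCycles W (X.prod X)
      ((j : ℤ) - (l : ℕ))))] at hsum
  set r : ℤ → ℕ := fun d => Module.finrank W.K (KS (ROp W X) d) with hrdef
  have s1 : ∑ l ∈ range (Z.dim + 1), r ((Z.dim : ℤ) - ((j : ℤ) - X.dim) - (l : ℕ)) =
      ∑ l ∈ range (Z.dim + 1), Module.finrank W.K (spanCycles W (X.prod X)
          (((2 * X.dim + Z.dim - j : ℕ) : ℤ) - (l : ℕ))) := by
    apply Finset.sum_congr rfl
    intro l _
    rw [hrdef]
    beta_reduce
    rw [finrank_KS]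
    have : (X.dim : ℤ) + ((Z.dim : ℤ) - ((j : ℤ) - X.dim) - (l : ℕ)) =
      ((2 * X.dim + Z.dim - j : ℕ) : ℤ) - (l : ℕ) := by omega
    rw [this]
  have s2 : ∑ l ∈ range (Z.dim + 1), r ((j : ℤ) - X.dim - (l : ℕ)) =
      ∑ l ∈ range (Z.dim + 1), Module.finrank W.K (spanCycles W (X.prod X)
          ((j : ℤ) - (l : ℕ))) := by
    apply Finset.sum_congr rfl
    intro l _
    rw [hrdef]
    beta_reduce
    rw [finrank_KS]
    have : (X.dim : ℤ) + ((j : ℤ) - X.dim - (l : ℕ)) = (j : ℤ) - (l : ℕ) := by omega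
    rw [this]
  have hc := cancel (r := r) (fun d => rank_le hD hHL d) (u := u) hpos (n := X.dim) (z := Z.dim)
    (j := j)
  rw [if_pos hj, s1, s2] at hc
  rcases hc with hc | hc
  · unfold cycleRank
    omega
  · omega

end Top

section Criteria

/-- The conjecture A in one codimension gives the inequality of ranks. -/
lemma rank_of_A {G : Y.Cycles} {j : ℕ} (hA : LefschetzAIn W Y G j) :
    cycleRank W Y (Y.dim - j : ℕ) ≤ cycleRank W Y j := by
  have hle : spanCycles W Y ((Y.dim - j : ℕ) : ℤ) ≤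
      (spanCycles W Y j).map (LinearMap.mulLeft W.K (W.cl Y G) ^ (Y.dim - 2 * j)) := by
    rw [spanCycles, Submodule.span_le]
    rintro _ ⟨p, hp, z, hz, rfl⟩
    have hp' : p = Y.dim - j := by exact_mod_cast hp
    subst hp'
    obtain ⟨z', hz', hzz⟩ := hA z hz
    refine ⟨W.cl Y z', Submodule.subset_span ⟨j, rfl, z', hz', rfl⟩, ?_⟩
    rw [← hzz, cl_divPow]
  exact (Submodule.finrank_mono hle).trans (Submodule.finrank_map_le _ _)

/-- The conjecture D for cycles of dimension `j` gives the inequality of ranks. -/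
lemma rank_of_D {j : ℕ} (hj : j ≤ Y.dim) (hDn : HomEqNumIn W Y (Y.dim - j)) :
    cycleRank W Y (Y.dim - j : ℕ) ≤ cycleRank W Y j := by
  set Ψ : spanCycles W Y ((Y.dim - j : ℕ) : ℤ) →ₗ[W.K] Module.Dual W.K (spanCycles W Y j) :=
    LinearMap.mk₂ W.K (fun a b => W.tr Y ((b : W.H Y) * (a : W.H Y)))
      (fun a a' b => by simp [mul_add]) (fun c a b => by simp)
      (fun a b b' => by simp [add_mul]) (fun c a b => by simp) with hΨ
  have hinj : Function.Injective Ψ := by
    rw [← LinearMap.ker_eq_bot, LinearMap.ker_eq_bot']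
    rintro ⟨a, ha⟩ h0
    apply Subtype.ext
    refine HomEqNumIn.span (p := j) (by omega) hDn ha ?_
    intro w hw
    have h1 := LinearMap.congr_fun h0 ⟨W.cl Y w, Submodule.subset_span ⟨j, rfl, w, hw, rfl⟩⟩
    exact h1
  have h2 := LinearMap.finrank_le_finrank_of_injective hinj
  rw [Subspace.dual_finrank_eq] at h2
  exact h2

end Criteria

section Final

variable {D : X.Cycles} {E : Z.Cycles}

/-- The number of the integers `d` with `max (n - j) (j + 1 - n) ≤ d ≤ min (n - i) (n + z - j)`. -/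
def spreadNumber (n z i j : ℕ) : ℕ := min (n - i) (n + z - j) + 1 - max (n - j) (j + 1 - n)

/-- The conjectures A and D fail on `T` for the cycles of dimension `j`, with a gap of at least `N`
between the ranks of the spans of the classes of the cycles of codimension `j` and of dimension
`j`. -/
def FailsAt (W : WeilCohomology.{u, v} ops) (T : 𝒱.Obj) (j N : ℕ) : Prop :=
  cycleRank W T j + N ≤ cycleRank W T (T.dim - j : ℕ) ∧
    (∀ G : T.Cycles, ¬ LefschetzAIn W T G j) ∧ ¬ HomEqNumIn W T (T.dim - j)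

lemma fails_of_rank {T : 𝒱.Obj} {j N : ℕ} (hN : 1 ≤ N) (hj : j ≤ T.dim)
    (h : cycleRank W T j + N ≤ cycleRank W T (T.dim - j : ℕ)) : FailsAt W T j N := by
  refine ⟨h, fun G hA => ?_, fun hDn => ?_⟩
  · have := rank_of_A hA
    omega
  · have := rank_of_D hj hDn
    omega

/-- **The spread of failures.** -/
theorem spread (hD : X.IsCyc 1 D) (hHL : HardLefschetz W X D) (hE : Z.IsCyc 1 E)
    (hHLE : HardLefschetz W Z E) (h1 : (1 : W.H Z) ≠ 0) {i j : ℕ} (hij : i ≤ j)
    (hij2 : i + j < 2 * X.dim) (hj : 2 * j < 2 * X.dim + Z.dim)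
    (hfail : ¬ OuterAlgebraic W X D i) :
    1 ≤ spreadNumber X.dim Z.dim i j ∧
      FailsAt W ((X.prod X).prod Z) j (spreadNumber X.dim Z.dim i j) := by
  have hN : 1 ≤ spreadNumber X.dim Z.dim i j := by
    unfold spreadNumber
    omega
  refine ⟨hN, fails_of_rank hN (by rw [dim_prod, dim_prod]; omega) ?_⟩
  apply rank_of_triple hD hHL hE hHLE h1 hj
  intro d hd hdi
  have h2 := rank_le (W := W) hD hHL d
  by_contra h3
  apply hfail
  exact outer_of_rank hD hHL hd (by omega) i (by omega)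

/-- If all outer projectors are algebraic, then so is the middle one. -/
lemma kunneth_of_outer (h : ∀ i < X.dim, KunnethAt W X i ∧ KunnethAt W X (2 * X.dim - i)) :
    KunnethStd W X := by
  have hR := rop_opAlg (W := W) (X := X)
  have hint := W.isInternal X
  have hrop : ∀ i, KunnethAt W X i → ROp W X 0 (proj hint i) := by
    rintro i ⟨P, hP, hPi⟩
    have e : proj hint i = W.corr (W.cl _ P) := by
      apply gr_ext hint
      intro l a ha
      rw [hPi l a ha]
      by_cases hl : l = i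
      · subst hl; rw [proj_same hint ha, if_pos rfl]
      · rw [proj_ne hint ha hl, if_neg hl]
    rw [e]
    exact rop_corr (by omega) hP
  have hback : ∀ i, ROp W X 0 (proj hint i) →
      ∃ P, (X.prod X).IsCyc X.dim P ∧ InducesProjector W X i P := by
    intro i hi
    obtain ⟨z, hz, hzp⟩ := exists_of_rop (p := X.dim) (by omega) hi
    refine ⟨z, hz, ?_⟩
    intro l a ha
    rw [hzp]
    by_cases hl : l = i
    · subst hl; rw [if_pos rfl, proj_same _ ha]
    · rw [if_neg hl, proj_ne _ ha hl]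
  intro i
  apply hback
  rcases lt_trichotomy i X.dim with h1 | rfl | h1
  · exact hrop i (h i h1).1
  · have e : proj hint X.dim = 1 - ∑ l ∈ range X.dim, (proj hint l + proj hint (2 * X.dim - l)) := by
      apply gr_ext hint
      intro l a ha
      rw [LinearMap.sub_apply, Module.End.one_apply, LinearMap.sum_apply]
      rcases lt_trichotomy l X.dim with h2 | rfl | h2
      · rw [proj_ne hint ha (by omega), Finset.sum_eq_single l, LinearMap.add_apply,
          proj_same hint ha, proj_ne hint ha (by omega), add_zero, sub_self]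
        · intro b hb hbl
          rw [Finset.mem_range] at hb
          rw [LinearMap.add_apply, proj_ne hint ha (Ne.symm hbl), proj_ne hint ha (by omega),
            add_zero]
        · intro h'; exact absurd (Finset.mem_range.2 h2) h'
      · rw [proj_same hint ha, Finset.sum_eq_zero, sub_zero]
        intro b hb
        rw [Finset.mem_range] at hb
        rw [LinearMap.add_apply, proj_ne hint ha (by omega), proj_ne hint ha (by omega), add_zero]
      · by_cases h3 : l ≤ 2 * X.dim
        · rw [proj_ne hint ha (by omega), Finset.sum_eq_single (2 * X.dim - l),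
            LinearMap.add_apply, show 2 * X.dim - (2 * X.dim - l) = l by omega,
            proj_same hint ha, proj_ne hint ha (by omega), zero_add, sub_self]
          · intro b hb hbl
            rw [Finset.mem_range] at hb
            rw [LinearMap.add_apply, proj_ne hint ha (by omega), proj_ne hint ha (by omega),
              add_zero]
          · intro h'; exact absurd (Finset.mem_range.2 (by omega)) h'
        · rw [W.gr_eq_bot X l (by omega)] at ha
          rw [(Submodule.mem_bot _).1 ha]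
          simp
    rw [e]
    apply hR.sub hR.one
    apply hR.sum
    intro l hl
    rw [Finset.mem_range] at hl
    exact hR.add (hrop l (h l hl).1) (hrop _ (h l hl).2)
  · by_cases h3 : i ≤ 2 * X.dim
    · have := (h (2 * X.dim - i) (by omega)).2
      rw [show 2 * X.dim - (2 * X.dim - i) = i by omega] at this
      exact hrop i this
    · have e : proj hint i = 0 := by
        apply gr_ext hint
        intro l a ha
        rw [LinearMap.zero_apply]
        by_cases hl : l = i
        · subst hl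
          rw [W.gr_eq_bot X l (by omega)] at ha
          rw [(Submodule.mem_bot _).1 ha, map_zero]
        · exact proj_ne hint ha hl
      rw [e]
      exact hR.zero 0

/-- The conjecture B from the inverses. -/
lemma lefschetzB_of_outer (hD : X.IsCyc 1 D) (hHL : HardLefschetz W X D)
    (h : ∀ i < X.dim, InverseAlgebraic W X D i) : LefschetzB W X D := by
  apply lefschetzB_of_inj hD hHL
  intro c hc
  rcases Nat.eq_zero_or_pos c with rfl | h0
  · refine ⟨1, ?_, fun a _ h => h⟩
    rw [← mem_KS_iff]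
    exact (rop_opAlg (W := W) (X := X)).kspan.cast
      (rop_opAlg (W := W) (X := X)).kspan.one (by simp)
  · obtain ⟨z, hz, -, hzi'⟩ := h (X.dim - c) (by omega)
    have hzi : ∀ a ∈ W.gr X (X.dim - c), W.corr (W.cl (X.prod X) z)
        (W.cl X D ^ (X.dim - (X.dim - c)) * a) = a := by
      intro a ha
      have := hzi' a ha
      rwa [LinearMap.pow_mulLeft, LinearMap.mulLeft_apply] at this
    refine ⟨_, KOp.gen (p := X.dim - c) (by omega) hz, ?_⟩
    intro a ha h0'
    obtain ⟨b, hb, hb'⟩ := (hHL (X.dim - c) (by omega)).2 a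
      (by rw [show 2 * X.dim - (X.dim - c) = X.dim + c by omega]; exact ha)
    rw [LinearMap.pow_mulLeft, LinearMap.mulLeft_apply] at hb'
    rw [← hb', hzi b hb] at h0'
    rw [← hb', h0', mul_zero]

/-- **If B or C fails, then A and D fail beside the middle of `X × X × Z` for all `Z`.** -/
theorem spread_BC (hD : X.IsCyc 1 D) (hHL : HardLefschetz W X D)
    (hfail : ¬ (LefschetzB W X D ∧ KunnethStd W X)) :
    ∃ i < X.dim, ¬ OuterAlgebraic W X D i := by
  by_contra h
  push Not at h
  exact hfail ⟨lefschetzB_of_outer hD hHL fun i hi => (h i hi).1,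
    kunneth_of_outer fun i hi => (h i hi).2⟩

/-- The variety `Z` has non-zero cohomology, and a divisor with hard Lefschetz. -/
def HasLefschetz (W : WeilCohomology.{u, v} ops) (Z : 𝒱.Obj) : Prop :=
  (1 : W.H Z) ≠ 0 ∧ ∃ E : Z.Cycles, Z.IsCyc 1 E ∧ HardLefschetz W Z E

/-- For all `j` with `i ≤ j`, `i + j < 2 dim X` and `2 j < dim (X × X × Z)` the conjectures A and D fail
on `X × X × Z` for the cycles of dimension `j`, with a positive gap of at least `spreadNumber`. -/
def FailureSpreads (W : WeilCohomology.{u, v} ops) (X Z : 𝒱.Obj) (i : ℕ) : Prop :=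
  ∀ j, i ≤ j → i + j < 2 * X.dim → 2 * j < 2 * X.dim + Z.dim →
    1 ≤ spreadNumber X.dim Z.dim i j ∧
      FailsAt W ((X.prod X).prod Z) j (spreadNumber X.dim Z.dim i j)

theorem failureSpreads (hD : X.IsCyc 1 D) (hHL : HardLefschetz W X D) (hZ : HasLefschetz W Z)
    {i : ℕ} (hfail : ¬ OuterAlgebraic W X D i) : FailureSpreads W X Z i := by
  obtain ⟨h1, E, hE, hHLE⟩ := hZ
  exact fun j hij hij2 hj => spread hD hHL hE hHLE h1 hij hij2 hj hfail

end Final

end Pool.Agent.U360.SF
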